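import Pool.Agent.Lib.MP_fce888_co.C.Core.Stm

set_option autoImplicit false

/-!
# MP_fce888_co, section C: the case analysis before the isolated classes
-/

namespace Pool.Agent.Lib.MP_fce888_co

open Finset
open scoped Classical

section case

variable {V : Type} [Fintype V]

private theorem case_mono {μ : Finset (Sym2 V) → ℝ} (hμ : ∀ D, 0 ≤ μ D)
    (F : Finset (Finset (Sym2 V))) {p q : Finset (Sym2 V) → Prop} (h : ∀ D ∈ F, p D → q D) :
    mas μ F p ≤ mas μ F q := by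
  unfold mas
  refine Finset.sum_le_sum_of_subset_of_nonneg ?_ fun D _ _ => hμ D
  intro D hD
  have hD' := Finset.mem_filter.1 hD
  exact Finset.mem_filter.2 ⟨hD'.1, h D hD'.1 hD'.2⟩

private theorem case_or {μ : Finset (Sym2 V) → ℝ} (hμ : ∀ D, 0 ≤ μ D)
    (F : Finset (Finset (Sym2 V))) {p q r : Finset (Sym2 V) → Prop}
    (h : ∀ D ∈ F, p D → q D ∨ r D) :
    mas μ F p ≤ mas μ F q + mas μ F r := by
  unfold mas
  have h1 : F.filter p ⊆ F.filter q ∪ F.filter r := by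
    intro D hD
    have hD' := Finset.mem_filter.1 hD
    rcases h D hD'.1 hD'.2 with h2 | h2
    · exact Finset.mem_union_left _ (Finset.mem_filter.2 ⟨hD'.1, h2⟩)
    · exact Finset.mem_union_right _ (Finset.mem_filter.2 ⟨hD'.1, h2⟩)
  have h2 := Finset.sum_union_inter (s₁ := F.filter q) (s₂ := F.filter r) (f := μ)
  have h3 : 0 ≤ ∑ D ∈ F.filter q ∩ F.filter r, μ D := Finset.sum_nonneg fun D _ => hμ D
  have h4 : ∑ D ∈ F.filter p, μ D ≤ ∑ D ∈ F.filter q ∪ F.filter r, μ D :=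
    Finset.sum_le_sum_of_subset_of_nonneg h1 fun D _ _ => hμ D
  linarith

/-- the first half: the edge `g` is heavy -/
private theorem case_half {μ : Finset (Sym2 V) → ℝ} (hμ : ∀ D, 0 ≤ μ D)
    (F : Finset (Finset (Sym2 V))) (C : Finset (Sym2 V)) (g g' : Sym2 V) {n ε3 η : ℝ}
    (hη : ε3 = η / 2) (hC : C ∈ F) (hg : g ∈ C)
    (hA : ∀ v ∈ vs C, mas μ F (fun D => v ∈ vs D ∧ g ∉ D ∧ g' ∉ D) < ε3 / n)
    (hg' : mas μ F (fun D => g' ∈ D) < ε3 / n) :
    C ∈ lock μ F (η / n) g := by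
  unfold lock
  refine Finset.mem_filter.2 ⟨hC, hg, fun v hv => ?_⟩
  have h1 := case_or hμ F (p := fun D => v ∈ vs D ∧ g ∉ D)
    (q := fun D => v ∈ vs D ∧ g ∉ D ∧ g' ∉ D) (r := fun D => g' ∈ D) (by
      intro D _ hD
      by_cases h : g' ∈ D
      · exact Or.inr h
      · exact Or.inl ⟨hD.1, hD.2, h⟩)
  have h2 := hA v hv
  have h3 : ε3 / n + ε3 / n = η / n := by
    rw [hη]
    ring
  linarith

end case

theorem p_case : S_case := by
  intro _ V _ G K N κ a Cs s Rm r1 r2 tc r4 ρ LT ε0 ε2 ε3 η η' Ω _ Ω₀ Q e C GG μ X _ F hctx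
  intro ω hω hd he hf hg i k hik x hmed hC
  have hμ := hctx.str.mu_nonneg
  have hn : (0 : ℝ) < (Fintype.card V : ℝ) := by exact_mod_cast hctx.hn
  have hε : 3 * ε3 ≤ ε2 := hctx.num.ε3ε2
  have hε2 := hctx.num.ε2pos
  have hη := hctx.num.ε3η
  by_cases hB : ε0 / Fintype.card V ≤ ∑ D ∈ dif μ (F x) (ε2 / Fintype.card V), μ D
  · exact Or.inl hB
  refine Or.inr ?_
  by_cases hA : ∃ v ∈ vs (C ω i k), ε3 / Fintype.card V ≤
        mas μ (F x) (fun D => v ∈ vs D ∧ e ω i ∉ D ∧ e ω k ∉ D)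
  · exact Or.inl hA
  refine Or.inr ?_
  push Not at hB hA
  -- a vertex of positive mass
  have h1 := hd i k hik x hmed hB
  obtain ⟨v, hv, hv2⟩ : ∃ v ∈ vs (C ω i k), ε2 / Fintype.card V ≤
      mas μ (F x) (fun D => v ∈ vs D) := by
    by_contra hcon
    push Not at hcon
    exact h1 (Finset.mem_filter.2 ⟨hC, hcon⟩)
  have h2 := case_or hμ (F x) (p := fun D => v ∈ vs D)
    (q := fun D => v ∈ vs D ∧ e ω i ∉ D ∧ e ω k ∉ D) (r := fun D => e ω i ∈ D ∨ e ω k ∈ D) (by
      intro D _ hD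
      by_cases h3 : e ω i ∈ D
      · exact Or.inr (Or.inl h3)
      · by_cases h4 : e ω k ∈ D
        · exact Or.inr (Or.inr h4)
        · exact Or.inl ⟨hD, h3, h4⟩)
  have h3 := case_or hμ (F x) (p := fun D => e ω i ∈ D ∨ e ω k ∈ D)
    (q := fun D => e ω i ∈ D) (r := fun D => e ω k ∈ D) (fun D _ hD => hD)
  have h4 := hA v hv
  have h5 : ε2 / 3 / Fintype.card V ≤ mas μ (F x) (fun D => e ω i ∈ D) ∨
      ε2 / 3 / Fintype.card V ≤ mas μ (F x) (fun D => e ω k ∈ D) := by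
    by_contra hcon
    push Not at hcon
    have h6 : ε3 / Fintype.card V ≤ ε2 / 3 / Fintype.card V :=
      div_le_div_of_nonneg_right (by linarith) hn.le
    have h7 : ε2 / 3 / (Fintype.card V : ℝ) + ε2 / 3 / Fintype.card V +
        ε2 / 3 / Fintype.card V = ε2 / Fintype.card V := by ring
    linarith [hcon.1, hcon.2]
  have h6 : ε3 / (Fintype.card V : ℝ) ≤ ε2 / 3 / Fintype.card V :=
    div_le_div_of_nonneg_right (by linarith) hn.le
  have hsymm : C ω k i = C ω i k := hctx.str.symm ω hω k i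
  have hei : e ω i ∈ C ω i k := hctx.str.e_mem ω hω i k hik
  have hek : e ω k ∈ C ω i k := by
    rw [← hsymm]
    exact hctx.str.e_mem ω hω k i hik.symm
  rcases h5 with h5 | h5
  · left
    have h7 : mas μ (F x) (fun D => e ω k ∈ D) < ε3 / Fintype.card V := by
      by_contra hcon
      push Not at hcon
      exact he i k hik x hmed ⟨h6.trans h5, hcon⟩
    have h8 := case_half hμ (F x) (C ω i k) (e ω i) (e ω k) hη hC hei hA h7
    have h9 := hf i k hik x hmed h5 h8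
    exact ⟨h9, fun g' hg' => hg i k hik x hmed (e ω i) h9 g' hg' hC hei, h7⟩
  · right
    have h7 : mas μ (F x) (fun D => e ω i ∈ D) < ε3 / Fintype.card V := by
      by_contra hcon
      push Not at hcon
      exact he i k hik x hmed ⟨hcon, h6.trans h5⟩
    have hA' : ∀ v ∈ vs (C ω i k), mas μ (F x)
        (fun D => v ∈ vs D ∧ e ω k ∉ D ∧ e ω i ∉ D) < ε3 / Fintype.card V := by
      intro v hv
      refine lt_of_le_of_lt (case_mono hμ (F x) ?_) (hA v hv)
      intro D _ hD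
      exact ⟨hD.1, hD.2.2, hD.2.1⟩
    have h8 := case_half hμ (F x) (C ω i k) (e ω k) (e ω i) hη hC hek hA' h7
    have h9 := hf k i hik.symm x hmed h5 (by rw [hsymm]; exact h8)
    exact ⟨h9, fun g' hg' => hg i k hik x hmed (e ω k) h9 g' hg' hC hek, h7⟩

end Pool.Agent.Lib.MP_fce888_co
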