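import Pool.Agent.Lib.MP_fce888_co.C.Core.Stm

set_option autoImplicit false

namespace Pool.Agent.Lib.MP_fce888_co

open Finset
open scoped Classical

private theorem cls37_mas_le {V : Type} [Fintype V] (μ : Finset (Sym2 V) → ℝ) (hμ : ∀ D, 0 ≤ μ D)
    (S F : Finset (Finset (Sym2 V))) (p : Finset (Sym2 V) → Prop)
    (h : ∀ D ∈ S, D ∈ F ∧ p D) : ∑ D ∈ S, μ D ≤ mas μ F p := by
  unfold mas
  refine sum_le_sum_of_subset_of_nonneg ?_ fun D _ _ => hμ D
  intro D hD
  exact mem_filter.2 (h D hD)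

/-- (i) -/
private theorem cls37_i {V : Type} [Fintype V] (μ : Finset (Sym2 V) → ℝ) (hμ : ∀ D, 0 ≤ μ D)
    (F : Finset (Finset (Sym2 V))) (t : ℝ) (e e' : Sym2 V) (D : Finset (Sym2 V))
    (hD : D ∈ lock μ F t e) (he' : e' ∈ D) : mas μ F (fun D => e' ∈ D ∧ e ∉ D) < t := by
  obtain ⟨a, ha⟩ : ∃ a, a ∈ e' := by
    induction e' using Sym2.ind with
    | _ x y => exact ⟨x, Sym2.mem_mk_left x y⟩
  simp only [lock, mem_filter] at hD
  have hav : a ∈ vs D := by
    simp only [vs, mem_filter, mem_univ, true_and]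
    exact ⟨e', he', ha⟩
  refine lt_of_le_of_lt ?_ (hD.2.2 a hav)
  unfold mas
  refine sum_le_sum_of_subset_of_nonneg ?_ fun D _ _ => hμ D
  intro D' hD'
  simp only [mem_filter] at hD' ⊢
  refine ⟨hD'.1, ?_, hD'.2.2⟩
  simp only [vs, mem_filter, mem_univ, true_and]
  exact ⟨e', hD'.2.1, ha⟩

/-- (ii) -/
private theorem cls37_ii {V : Type} [Fintype V] (μ : Finset (Sym2 V) → ℝ) (hμ : ∀ D, 0 ≤ μ D)
    (F : Finset (Finset (Sym2 V))) (t t' : ℝ) (htt' : t < t') (e e' : Sym2 V)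
    (he' : e' ∈ rel μ F t t') (h : ∃ D ∈ lock μ F t e, e' ∈ D) : ∃ D ∈ lock μ F t e', e ∈ D := by
  by_contra hcon
  push Not at hcon
  obtain ⟨D, hD, heD⟩ := h
  have h1 := cls37_i μ hμ F t e e' D hD heD
  simp only [rel, mem_filter, mem_univ, true_and] at he'
  have h2 : ∑ D ∈ lock μ F t e', μ D ≤ mas μ F (fun D => e' ∈ D ∧ e ∉ D) := by
    refine cls37_mas_le μ hμ _ F _ ?_
    intro D' hD'
    have h3 := hcon D' hD'
    simp only [lock, mem_filter] at hD'
    exact ⟨hD'.1, hD'.2.1, h3⟩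
  linarith

/-- the mass of the circuits containing `e` but not `e'` -/
private theorem cls37_m {V : Type} [Fintype V] (μ : Finset (Sym2 V) → ℝ) (hμ : ∀ D, 0 ≤ μ D)
    (F : Finset (Finset (Sym2 V))) (t t' : ℝ) (htt' : t < t') (e e' : Sym2 V)
    (he' : e' ∈ rel μ F t t') (h : ∃ D ∈ lock μ F t e, e' ∈ D) :
    mas μ F (fun D => e ∈ D ∧ e' ∉ D) < t := by
  obtain ⟨D, hD, heD⟩ := cls37_ii μ hμ F t t' htt' e e' he' h
  exact cls37_i μ hμ F t e' e D hD heD

private theorem cls37_trans {V : Type} [Fintype V] (μ : Finset (Sym2 V) → ℝ) (hμ : ∀ D, 0 ≤ μ D)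
    (F : Finset (Finset (Sym2 V))) (t t' : ℝ) (ht : 0 < t) (htt' : 2 * t < t') (e e' e'' : Sym2 V)
    (he : e ∈ rel μ F t t') (he' : e' ∈ rel μ F t t') (he'' : e'' ∈ rel μ F t t')
    (h : ∃ D ∈ lock μ F t e, e' ∈ D) (h' : ∃ D ∈ lock μ F t e', e'' ∈ D) :
    ∃ D ∈ lock μ F t e, e'' ∈ D := by
  by_contra hcon
  push Not at hcon
  have h1 := cls37_m μ hμ F t t' (by linarith) e e' he' h
  have h2 := cls37_m μ hμ F t t' (by linarith) e' e'' he'' h'
  simp only [rel, mem_filter, mem_univ, true_and] at he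
  have h3 : ∑ D ∈ lock μ F t e, μ D =
      ∑ D ∈ (lock μ F t e).filter (fun D => e' ∈ D), μ D +
      ∑ D ∈ (lock μ F t e).filter (fun D => ¬ e' ∈ D), μ D :=
    (sum_filter_add_sum_filter_not _ _ _).symm
  have h4 : ∑ D ∈ (lock μ F t e).filter (fun D => ¬ e' ∈ D), μ D ≤
      mas μ F (fun D => e ∈ D ∧ e' ∉ D) := by
    refine cls37_mas_le μ hμ _ F _ ?_
    intro D' hD'
    rw [mem_filter] at hD'
    have h5 := hD'.1
    simp only [lock, mem_filter] at h5
    exact ⟨h5.1, h5.2.1, hD'.2⟩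
  have h6 : ∑ D ∈ (lock μ F t e).filter (fun D => e' ∈ D), μ D ≤
      mas μ F (fun D => e' ∈ D ∧ e'' ∉ D) := by
    refine cls37_mas_le μ hμ _ F _ ?_
    intro D' hD'
    rw [mem_filter] at hD'
    have h7 := hcon D' hD'.1
    have h5 := hD'.1
    simp only [lock, mem_filter] at h5
    exact ⟨h5.1, hD'.2, h7⟩
  linarith

theorem p_cls : S_cls := by
  intro V _ μ F t t' hμ ht htt'
  have hrefl : ∀ e ∈ rel μ F t t', ∃ D ∈ lock μ F t e, e ∈ D := by
    intro e he
    simp only [rel, mem_filter, mem_univ, true_and] at he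
    have h1 : (lock μ F t e).Nonempty := by
      by_contra h
      rw [not_nonempty_iff_eq_empty] at h
      rw [h, sum_empty] at he
      linarith
    obtain ⟨D, hD⟩ := h1
    refine ⟨D, hD, ?_⟩
    simp only [lock, mem_filter] at hD
    exact hD.2.1
  have hcls : ∀ e e', e' ∈ cls μ F t t' e ↔ e' ∈ rel μ F t t' ∧ ∃ D ∈ lock μ F t e, e' ∈ D := by
    intro e e'
    simp only [cls, mem_filter]
  refine ⟨?_, ?_, ?_, ?_⟩
  · intro e he
    exact (hcls e e).2 ⟨he, hrefl e he⟩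
  · intro e he e' he'
    obtain ⟨h1, h2⟩ := (hcls e e').1 he'
    have h3 := cls37_ii μ hμ F t t' (by linarith) e e' h1 h2
    ext g
    rw [hcls, hcls]
    constructor
    · rintro ⟨hg, h4⟩
      exact ⟨hg, cls37_trans μ hμ F t t' ht htt' e e' g he h1 hg h2 h4⟩
    · rintro ⟨hg, h4⟩
      exact ⟨hg, cls37_trans μ hμ F t t' ht htt' e' e g h1 he hg h3 h4⟩
  · intro e he e' he'
    obtain ⟨h1, h2⟩ := (hcls e e').1 he'
    exact cls37_m μ hμ F t t' (by linarith) e e' h1 h2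
  · intro e he e' he'
    obtain ⟨h1, h2⟩ := (hcls e e').1 he'
    have h3 := cls37_m μ hμ F t t' (by linarith) e e' h1 h2
    simp only [rel, mem_filter, mem_univ, true_and] at he
    have h4 : ∑ D ∈ lock μ F t e, μ D =
        ∑ D ∈ (lock μ F t e).filter (fun D => e' ∈ D), μ D +
        ∑ D ∈ (lock μ F t e).filter (fun D => ¬ e' ∈ D), μ D :=
      (sum_filter_add_sum_filter_not _ _ _).symm
    have h5 : ∑ D ∈ (lock μ F t e).filter (fun D => ¬ e' ∈ D), μ D ≤
        mas μ F (fun D => e ∈ D ∧ e' ∉ D) := by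
      refine cls37_mas_le μ hμ _ F _ ?_
      intro D' hD'
      rw [mem_filter] at hD'
      have h5 := hD'.1
      simp only [lock, mem_filter] at h5
      exact ⟨h5.1, h5.2.1, hD'.2⟩
    have h6 : ∑ D ∈ (lock μ F t e).filter (fun D => e' ∈ D), μ D ≤
        mas μ F (fun D => e ∈ D ∧ e' ∈ D) := by
      refine cls37_mas_le μ hμ _ F _ ?_
      intro D' hD'
      rw [mem_filter] at hD'
      have h5 := hD'.1
      simp only [lock, mem_filter] at h5
      exact ⟨h5.1, h5.2.1, hD'.2⟩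
    linarith

end Pool.Agent.Lib.MP_fce888_co
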