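import Pool.Agent.Lib.MP_fce888_co.C.Core.Stm

set_option autoImplicit false
set_option linter.unusedVariables false

/-!
# MP_fce888_co, 4.1-4.4: piece descr
-/

namespace Pool.Agent.Lib.MP_fce888_co

open Finset
open scoped Classical

theorem p_descr : S_descr := by
  intro hcls hdiam hlawA hlock V _ G K N κ0 a Cs s Rm r1 r2 tc r4 ρ LT ε0 ε2 ε3 η η' Ω _ Ω₀ Q e C GG
    μ X _ F ctx ω hω i k Th e2 hik hCTh x hmed hrel hsub hmas
  have hn : (0 : ℝ) < Fintype.card V := by exact_mod_cast ctx.hn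
  set n : ℕ := Fintype.card V with hn'
  have hmu : Mu G (rr n) ((lam n : ℝ) ^ a) GG μ :=
    ⟨ctx.str.mu_nonneg, ctx.str.mu_mass, ctx.str.lawM⟩
  have hη : 0 < η / (n : ℝ) := div_pos ctx.ηpos hn
  have hη2 : 2 * (η / (n : ℝ)) < η' / (n : ℝ) := by
    rw [← mul_div_assoc]
    exact div_lt_div_of_pos_right ctx.num.ηη' hn
  obtain ⟨c1, c2, -, -⟩ := hcls V μ (F x) (η / n) (η' / n) ctx.str.mu_nonneg hη hη2
  have hlk : ∀ (g' : Sym2 V) (v : V), g' ∈ rel μ (F x) (η / n) (η' / n) →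
      g' ∉ cls μ (F x) (η / n) (η' / n) (e ω i) → v ∈ g' →
      ∃ S f, (∀ D ∈ S, D ∈ F x) ∧ LawA G (rr n) ((lam n : ℝ) ^ a / ε3) (e ω i) e2 v S f :=
    fun g' v hg' hg'' hv => hlock hcls hlawA V G K N κ0 a Cs s Rm r1 r2 tc r4 ρ LT ε0 ε2 ε3 η η' Ω Ω₀
      Q e C GG μ X F ctx x (e ω i) e2 g' v hrel hg' hg'' hv hmas
  by_cases hiso : Iso G r2 μ (F x) (η / n) (η' / n) (e ω i)
  · have hκI : cls μ (F x) (η / n) (η' / n) (e ω i) ∈ isoC G r2 μ (F x) (η / n) (η' / n) :=
      mem_image_of_mem _ (mem_filter.2 ⟨hrel, hiso⟩)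
    have hκQ : cls μ (F x) (η / n) (η' / n) (e ω i) ⊆ Q ω i := by
      intro g hg
      refine ctx.str.near_mem ω hω i k hik g (hsub hg) ?_
      intro u hu v hv
      have := hdiam hcls V G (rr n) r1 ((lam n : ℝ) ^ a) η η' GG (F x) μ hmu (ctx.sub x) ctx.ηpos
        ctx.num.ηη' (by positivity) ctx.num.r1r ctx.num.class_diam (e ω i) hrel g hg v hv u hu
      rw [SimpleGraph.dist_comm]
      exact this.trans ctx.num.r1r.le
    have hX : x ∈ Xi G N Q e μ F r2 ε0 LT η η' ω i :=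
      mem_filter.2 ⟨mem_univ _, hmed, _, hκI, c1 _ hrel, hκQ⟩
    rcases Nat.lt_or_ge (isoC G r2 μ (F x) (η / n) (η' / n)).card 3 with ht | ht
    · exact Or.inr (Or.inr ⟨hX, by omega⟩)
    · refine Or.inr (Or.inl ⟨hX, ht, ?_⟩)
      have hch : ∀ κ ∈ isoC G r2 μ (F x) (η / n) (η' / n), ∃ (g : Sym2 V) (v : V),
          g ∈ rel μ (F x) (η / n) (η' / n) ∧ Iso G r2 μ (F x) (η / n) (η' / n) g ∧
            cls μ (F x) (η / n) (η' / n) g = κ ∧ v ∈ g := by
        intro κ hκ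
        unfold isoC at hκ
        rw [mem_image] at hκ
        obtain ⟨g, hg, rfl⟩ := hκ
        rw [mem_filter] at hg
        induction g using Sym2.ind with
        | _ p q => exact ⟨s(p, q), p, hg.1, hg.2, rfl, Sym2.mem_mk_left _ _⟩
      have hV : Nonempty V := Fintype.card_pos_iff.1 ctx.hn
      have hSV : Nonempty (Sym2 V) := ⟨s(hV.some, hV.some)⟩
      choose! gg zz h1 h2 h3 h4 using hch
      -- two different classes are far apart
      have hfar : ∀ κ ∈ isoC G r2 μ (F x) (η / n) (η' / n),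
          ∀ κ' ∈ isoC G r2 μ (F x) (η / n) (η' / n), κ ≠ κ' → r2 < G.dist (zz κ) (zz κ') := by
        intro κ hκ κ' hκ' hne
        refine h2 κ hκ (gg κ) (c1 _ (h1 κ hκ)) (gg κ') (h1 κ' hκ') ?_ _ (h4 κ hκ) _ (h4 κ' hκ')
        intro hcon
        have := c2 _ (h1 κ hκ) _ hcon
        rw [h3 κ hκ, h3 κ' hκ'] at this
        exact hne this.symm
      set κ1 := cls μ (F x) (η / n) (η' / n) (e ω i) with hκ1
      have hinj : Set.InjOn zz ((isoC G r2 μ (F x) (η / n) (η' / n)).erase κ1) := by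
        intro κ hκ κ' hκ' heq
        by_contra hne
        have := hfar κ (mem_of_mem_erase hκ) κ' (mem_of_mem_erase hκ') hne
        rw [heq, SimpleGraph.dist_self] at this
        omega
      refine ⟨((isoC G r2 μ (F x) (η / n) (η' / n)).erase κ1).image zz, ?_, ?_, ?_⟩
      · rw [card_image_of_injOn hinj, card_erase_of_mem hκI]
        omega
      · intro z hz z' hz' hne
        rw [mem_image] at hz hz'
        obtain ⟨κ, hκ, rfl⟩ := hz
        obtain ⟨κ', hκ', rfl⟩ := hz'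
        have := hfar κ (mem_of_mem_erase hκ) κ' (mem_of_mem_erase hκ')
          (fun h => hne (by rw [h]))
        exact lt_of_le_of_lt ctx.num.tcr2 this
      · intro z hz
        rw [mem_image] at hz
        obtain ⟨κ, hκ, rfl⟩ := hz
        refine hlk (gg κ) (zz κ) (h1 κ (mem_of_mem_erase hκ)) ?_ (h4 κ (mem_of_mem_erase hκ))
        intro hcon
        have := c2 _ hrel _ hcon
        rw [h3 κ (mem_of_mem_erase hκ)] at this
        exact ne_of_mem_erase hκ this
  · unfold Iso at hiso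
    push Not at hiso
    obtain ⟨g, hg, g', hg', hg'', u, hu, v, hv, hd⟩ := hiso
    refine Or.inl ⟨v, ⟨u, ?_, by rw [SimpleGraph.dist_comm]; exact hd⟩, hlk g' v hg' hg'' hv⟩
    unfold vs
    rw [mem_filter]
    exact ⟨mem_univ _, g, hCTh (hsub hg), hu⟩

end Pool.Agent.Lib.MP_fce888_co
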