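import Pool.Agent.Lib.MP_fce888_co.C.Core.Stm

set_option autoImplicit false

/-! PIECE diam: the classes have small diameter. -/

namespace Pool.Agent.Lib.MP_fce888_co

open Finset
open scoped Classical

theorem p_diam : S_diam := by
  intro hcls V _ G r r1 Λ η η' GG F μ hMu hF hη h2 hΛ hr1 hlt e he e' he' u hu v hv
  by_contra hcon
  push Not at hcon
  have hn : (0 : ℝ) < Fintype.card V := by
    have : 0 < Fintype.card V := Fintype.card_pos_iff.2 ⟨u⟩
    exact_mod_cast this
  have ht : 0 < η / Fintype.card V := div_pos hη hn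
  have ht' : 2 * (η / Fintype.card V) < η' / Fintype.card V := by
    rw [← mul_div_assoc]
    exact div_lt_div_of_pos_right h2 hn
  have h4 := (hcls V μ F (η / Fintype.card V) (η' / Fintype.card V) hMu.nonneg ht ht').2.2.2 e he e' he'
  have h5 : mas μ F (fun D => e ∈ D ∧ e' ∈ D) ≤
      ∑ D ∈ GG.filter (fun D => u ∈ vs D ∧ v ∈ vs D), μ D := by
    unfold mas
    refine Finset.sum_le_sum_of_subset_of_nonneg (fun D hD => ?_) fun D _ _ => hMu.nonneg D
    simp only [Finset.mem_filter] at hD ⊢
    refine ⟨hF hD.1, ?_, ?_⟩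
    · unfold vs
      exact Finset.mem_filter.2 ⟨Finset.mem_univ _, e, hD.2.1, hu⟩
    · unfold vs
      exact Finset.mem_filter.2 ⟨Finset.mem_univ _, e', hD.2.2, hv⟩
  have h6 := hMu.lawM u v
  have h7 : (1 / 2 : ℝ) ^ (min (G.dist u v) r / 2) ≤ (1 / 2) ^ ((r1 + 1) / 2) := by
    apply pow_le_pow_of_le_one (by norm_num) (by norm_num)
    apply Nat.div_le_div_right
    exact le_min (by omega) (by omega)
  have h8 : Λ * (1 / 2) ^ (min (G.dist u v) r / 2) / Fintype.card V < (η' - η) / Fintype.card V :=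
    div_lt_div_of_pos_right ((mul_le_mul_of_nonneg_left h7 hΛ).trans_lt hlt) hn
  have h9 : (η' - η) / Fintype.card V = η' / Fintype.card V - η / Fintype.card V := sub_div _ _ _
  linarith

end Pool.Agent.Lib.MP_fce888_co
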