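import Pool.Agent.Lib.MP_fce888_co.C.Core.Stm

set_option autoImplicit false

/-!
# MP_fce888_co, section C: piece evd
-/

namespace Pool.Agent.Lib.MP_fce888_co

open Finset
open scoped Classical

theorem p_evd : S_evd := by
  intro hub V _ G K N κ a Cs s Rm r1 r2 tc r4 ρ LT ε0 ε2 ε3 η η' Ω _ Ω₀ Q e C GG μ X _ F ctx
  have hn : (0 : ℝ) < Fintype.card V := by exact_mod_cast ctx.hn
  have hε := ctx.num.ε0pos
  obtain ⟨J, hJ⟩ : ∃ J : Finset X, J = univ.filter fun x : X =>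
      ∑ D ∈ dif μ (F x) (ε2 / Fintype.card V), μ D < ε0 / Fintype.card V := ⟨_, rfl⟩
  have hJ' : ∀ x, x ∈ J ↔
      ∑ D ∈ dif μ (F x) (ε2 / Fintype.card V), μ D < ε0 / Fintype.card V := by
    intro x
    rw [hJ, Finset.mem_filter]
    exact ⟨fun h => h.2, fun h => ⟨Finset.mem_univ _, h⟩⟩
  have h1 := hub V N Ω Ω₀ C μ ctx.str.law1 X J
    (fun x => dif μ (F x) (ε2 / Fintype.card V)) (ε0 / Fintype.card V)
    (by positivity) (fun y hy => ((hJ' y).1 hy).le)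
  have h2 : ∀ (S : Finset Ω), (∀ ω ∈ Ω₀, ¬ Evd N C μ F ε0 ε2 LT ω → ω ∈ S) →
      ((Ω₀.filter fun ω => ¬ Evd N C μ F ε0 ε2 LT ω).card : ℝ) ≤ (S.card : ℝ) := by
    intro S hS
    have h3 : (Ω₀.filter fun ω => ¬ Evd N C μ F ε0 ε2 LT ω) ⊆ S := by
      intro ω hω
      obtain ⟨h3, h4⟩ := Finset.mem_filter.1 hω
      exact hS ω h3 h4
    exact_mod_cast Finset.card_le_card h3
  have hJc : J.card ≤ K * Fintype.card V := (Finset.card_le_univ J).trans ctx.cardX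
  have hJc' : (J.card : ℝ) ≤ K * Fintype.card V := by exact_mod_cast hJc
  have h5 := ctx.num.evb
  have h6 : (N : ℝ) ^ 2 * J.card * (ε0 / Fintype.card V) ≤
      (N : ℝ) ^ 2 * (K * Fintype.card V) * (ε0 / Fintype.card V) := by
    gcongr
  have h7 : (N : ℝ) ^ 2 * (K * Fintype.card V) * (ε0 / Fintype.card V) = (N : ℝ) ^ 2 * K * ε0 := by
    field_simp
  refine (h2 _ ?_).trans (h1.trans ?_)
  · intro ω hω h4
    refine Finset.mem_filter.2 ⟨hω, ?_⟩
    unfold Evd at h4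
    push Not at h4
    obtain ⟨i, k, hik, x, -, hx, hC⟩ := h4
    exact ⟨i, k, hik, x, (hJ' x).2 hx, hC⟩
  · exact mul_le_mul_of_nonneg_right (by linarith) (by positivity)

end Pool.Agent.Lib.MP_fce888_co
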