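import Pool.Agent.Lib.MP_fce888_co.C.Core.Stm

set_option autoImplicit false

/-!
# MP_fce888_co, section C: piece evf
-/

namespace Pool.Agent.Lib.MP_fce888_co

open Finset
open scoped Classical

private theorem good_card {V : Type} [Fintype V] {G : SimpleGraph V} {L r : ℕ}
    {D : Finset (Sym2 V)} (h : GoodCirc G L r D) : D.card ≤ 2 * L := by
  obtain ⟨m, γ, ⟨-, -, -, h1⟩, -, h2, -⟩ := h.cyc
  rw [h1]
  exact (card_image_le.trans (by rw [card_range])).trans h2

theorem p_evf : S_evf := by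
  intro hub hheavy V _ G K N κ a Cs s Rm r1 r2 tc r4 ρ LT ε0 ε2 ε3 η η' Ω _ Ω₀ Q e C GG μ X _ F ctx
  have hn : (0 : ℝ) < Fintype.card V := by exact_mod_cast ctx.hn
  have hε := ctx.num.ε2pos
  have hLT := ctx.num.LTpos
  have hη := ctx.ηpos
  have hη' : 0 < η' := by linarith [ctx.num.ηη']
  -- the heavy edges
  obtain ⟨H, hH⟩ : ∃ H : X → Finset (Sym2 V), ∀ x g, g ∈ H x ↔
      ε2 / 3 / Fintype.card V ≤ mas μ (F x) (fun D => g ∈ D) :=
    ⟨fun x => univ.filter fun g => ε2 / 3 / Fintype.card V ≤ mas μ (F x) (fun D => g ∈ D),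
      fun x g => by simp⟩
  have hHc : ∀ x, Med ε0 LT μ (F x) → ((H x).card : ℝ) ≤ 6 * LL (Fintype.card V) * LT / ε2 := by
    intro x hx
    have h1 := hheavy V μ (F x) (LL (Fintype.card V)) (ε2 / 3 / Fintype.card V)
      ctx.str.mu_nonneg (fun D hD => good_card (ctx.str.good D (ctx.sub x hD)))
    have h2 : ((univ : Finset (Sym2 V)).filter fun g =>
        ε2 / 3 / Fintype.card V ≤ mas μ (F x) (fun D => g ∈ D)) = H x := by
      ext g
      rw [hH]
      simp
    rw [h2] at h1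
    have h3 : 2 * (LL (Fintype.card V) : ℝ) * ∑ D ∈ F x, μ D ≤
        2 * (LL (Fintype.card V) : ℝ) * (LT / Fintype.card V) :=
      mul_le_mul_of_nonneg_left hx.2.le (by positivity)
    have h4 : 2 * (LL (Fintype.card V) : ℝ) * (LT / Fintype.card V) =
        6 * LL (Fintype.card V) * LT / ε2 * (ε2 / 3 / Fintype.card V) := by
      field_simp
      ring
    exact le_of_mul_le_mul_right ((h1.trans h3).trans_eq h4) (by positivity)
  obtain ⟨J, hJ⟩ : ∃ J : Finset (Σ _ : X, Sym2 V), J = (((univ.filter fun x : X =>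
      Med ε0 LT μ (F x)).sigma fun x => H x).filter fun y =>
        y.2 ∉ rel μ (F y.1) (η / Fintype.card V) (η' / Fintype.card V)) := ⟨_, rfl⟩
  have hJ' : ∀ x g, (⟨x, g⟩ : Σ _ : X, Sym2 V) ∈ J ↔ (Med ε0 LT μ (F x) ∧ g ∈ H x) ∧
      g ∉ rel μ (F x) (η / Fintype.card V) (η' / Fintype.card V) := by
    intro x g
    rw [hJ, Finset.mem_filter, Finset.mem_sigma, Finset.mem_filter]
    exact ⟨fun h => ⟨⟨h.1.1.2, h.1.2⟩, h.2⟩, fun h => ⟨⟨⟨Finset.mem_univ _, h.1.1⟩, h.1.2⟩, h.2⟩⟩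
  have hJc : (J.card : ℝ) ≤ K * Fintype.card V * (6 * LL (Fintype.card V) * LT / ε2) := by
    have h1 : J.card ≤ ∑ x ∈ univ.filter (fun x : X => Med ε0 LT μ (F x)), (H x).card := by
      rw [hJ]
      exact (Finset.card_filter_le _ _).trans (Finset.card_sigma _ _).le
    have h2 : (J.card : ℝ) ≤ ∑ x ∈ univ.filter (fun x : X => Med ε0 LT μ (F x)),
        ((H x).card : ℝ) := by exact_mod_cast h1
    have h3 : ∑ x ∈ univ.filter (fun x : X => Med ε0 LT μ (F x)), ((H x).card : ℝ) ≤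
        (univ.filter (fun x : X => Med ε0 LT μ (F x))).card •
          (6 * (LL (Fintype.card V) : ℝ) * LT / ε2) :=
      Finset.sum_le_card_nsmul _ _ _ fun x hx => hHc x (Finset.mem_filter.1 hx).2
    have h4 : ((univ.filter (fun x : X => Med ε0 LT μ (F x))).card : ℝ) ≤
        K * Fintype.card V := by
      exact_mod_cast (Finset.card_le_univ _).trans ctx.cardX
    rw [nsmul_eq_mul] at h3
    exact h2.trans (h3.trans (mul_le_mul_of_nonneg_right h4 (by positivity)))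
  have h1 := hub V N Ω Ω₀ C μ ctx.str.law1 (Σ _ : X, Sym2 V) J
    (fun y => lock μ (F y.1) (η / Fintype.card V) y.2) (η' / Fintype.card V)
    (by positivity) (by
      rintro ⟨x, g⟩ hy
      have h2 := ((hJ' x g).1 hy).2
      by_contra h3
      push Not at h3
      exact h2 (Finset.mem_filter.2 ⟨Finset.mem_univ _, h3.le⟩))
  have h2 : ∀ (S : Finset Ω), (∀ ω ∈ Ω₀, ¬ Evf N e C μ F ε0 ε2 LT η η' ω → ω ∈ S) →
      ((Ω₀.filter fun ω => ¬ Evf N e C μ F ε0 ε2 LT η η' ω).card : ℝ) ≤ (S.card : ℝ) := by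
    intro S hS
    have h3 : (Ω₀.filter fun ω => ¬ Evf N e C μ F ε0 ε2 LT η η' ω) ⊆ S := by
      intro ω hω
      obtain ⟨h3, h4⟩ := Finset.mem_filter.1 hω
      exact hS ω h3 h4
    exact_mod_cast Finset.card_le_card h3
  have h5 := ctx.num.evf
  have h6 : (N : ℝ) ^ 2 * J.card * (η' / Fintype.card V) ≤
      (N : ℝ) ^ 2 * (K * Fintype.card V * (6 * LL (Fintype.card V) * LT / ε2)) *
        (η' / Fintype.card V) := by
    gcongr
  have h7 : (N : ℝ) ^ 2 * (K * Fintype.card V * (6 * LL (Fintype.card V) * LT / ε2)) *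
        (η' / Fintype.card V) = (N : ℝ) ^ 2 * K * (6 * LL (Fintype.card V) * LT / ε2) * η' := by
    field_simp
  refine (h2 _ ?_).trans (h1.trans ?_)
  · intro ω hω h4
    refine Finset.mem_filter.2 ⟨hω, ?_⟩
    unfold Evf at h4
    push Not at h4
    obtain ⟨i, k, hik, x, hx, hg, hC, hr⟩ := h4
    exact ⟨i, k, hik, ⟨x, e ω i⟩, (hJ' x _).2 ⟨⟨hx, (hH x _).2 hg⟩, hr⟩, hC⟩
  · exact mul_le_mul_of_nonneg_right (by linarith) (by positivity)

end Pool.Agent.Lib.MP_fce888_co
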