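import Pool.Agent.Lib.MP_fce888_co.C.Core.Stm

set_option autoImplicit false

/-!
# MP_fce888_co, piece evh: Markov twice
-/

namespace Pool.Agent.Lib.MP_fce888_co

open Finset
open scoped Classical

/-- Markov's inequality, twice, in counting form -/
private lemma evh_markov {Ω : Type} (Ω₀ : Finset Ω) (N : ℕ) (hN : 1 ≤ N) (T : Ω → Fin N → ℝ)
    (hT : ∀ ω i, 0 ≤ T ω i) (κ M : ℝ) (hκ : 0 < κ)
    (hM : ∀ i, ∑ ω ∈ Ω₀, T ω i ≤ κ / 8 * M) :
    ((Ω₀.filter fun ω => ¬ N ≤ 2 * (univ.filter fun i : Fin N => T ω i ≤ κ).card).card : ℝ) ≤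
      1 / 4 * M := by
  have h1 : ∀ i, ((Ω₀.filter fun ω => ¬ T ω i ≤ κ).card : ℝ) ≤ M / 8 := by
    intro i
    have h2 : ((Ω₀.filter fun ω => ¬ T ω i ≤ κ).card : ℝ) * κ ≤ ∑ ω ∈ Ω₀, T ω i := by
      calc ((Ω₀.filter fun ω => ¬ T ω i ≤ κ).card : ℝ) * κ
          = ∑ ω ∈ Ω₀.filter fun ω => ¬ T ω i ≤ κ, κ := by rw [sum_const, nsmul_eq_mul]
        _ ≤ ∑ ω ∈ Ω₀.filter fun ω => ¬ T ω i ≤ κ, T ω i := by
            refine sum_le_sum fun ω hω => ?_
            rw [mem_filter] at hω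
            exact (not_le.mp hω.2).le
        _ ≤ ∑ ω ∈ Ω₀, T ω i := sum_le_sum_of_subset_of_nonneg (filter_subset _ _)
            fun ω _ _ => hT ω i
    have h3 := h2.trans (hM i)
    have h4 : κ / 8 * M = M / 8 * κ := by ring
    rw [h4] at h3
    exact le_of_mul_le_mul_right h3 hκ
  have hbad : ∀ ω, (univ.filter fun i : Fin N => T ω i ≤ κ).card +
      (univ.filter fun i : Fin N => ¬ T ω i ≤ κ).card = N := by
    intro ω
    have h2 := card_filter_add_card_filter_not (s := (univ : Finset (Fin N)))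
      (fun i : Fin N => T ω i ≤ κ)
    rw [card_univ, Fintype.card_fin] at h2
    exact h2
  have h5 : ∑ ω ∈ Ω₀, ((univ.filter fun i : Fin N => ¬ T ω i ≤ κ).card : ℝ) ≤ N * (M / 8) := by
    have e1 : ∑ ω ∈ Ω₀, ((univ.filter fun i : Fin N => ¬ T ω i ≤ κ).card : ℝ) =
        ∑ i : Fin N, ((Ω₀.filter fun ω => ¬ T ω i ≤ κ).card : ℝ) := by
      have e2 : ∀ ω, ((univ.filter fun i : Fin N => ¬ T ω i ≤ κ).card : ℝ) =
          ∑ i : Fin N, if ¬ T ω i ≤ κ then (1 : ℝ) else 0 := by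
        intro ω
        rw [sum_boole]
      have e3 : ∀ i, ((Ω₀.filter fun ω => ¬ T ω i ≤ κ).card : ℝ) =
          ∑ ω ∈ Ω₀, if ¬ T ω i ≤ κ then (1 : ℝ) else 0 := by
        intro i
        rw [sum_boole]
      rw [sum_congr rfl fun ω _ => e2 ω, sum_congr rfl fun i _ => e3 i, sum_comm]
    rw [e1]
    refine (sum_le_sum fun i _ => h1 i).trans ?_
    rw [sum_const, nsmul_eq_mul, card_univ, Fintype.card_fin]
  have h6 : ((Ω₀.filter fun ω => ¬ N ≤ 2 * (univ.filter fun i : Fin N => T ω i ≤ κ).card).card : ℝ) *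
      ((N : ℝ) / 2) ≤ N * (M / 8) := by
    refine le_trans ?_ h5
    calc ((Ω₀.filter fun ω => ¬ N ≤ 2 * (univ.filter fun i : Fin N => T ω i ≤ κ).card).card : ℝ) *
          ((N : ℝ) / 2) = ∑ ω ∈ Ω₀.filter fun ω =>
            ¬ N ≤ 2 * (univ.filter fun i : Fin N => T ω i ≤ κ).card, ((N : ℝ) / 2) := by
          rw [sum_const, nsmul_eq_mul]
      _ ≤ ∑ ω ∈ Ω₀.filter fun ω => ¬ N ≤ 2 * (univ.filter fun i : Fin N => T ω i ≤ κ).card,
            ((univ.filter fun i : Fin N => ¬ T ω i ≤ κ).card : ℝ) := by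
          refine sum_le_sum fun ω hω => ?_
          rw [mem_filter] at hω
          have h7 := hbad ω
          have h8 : N ≤ 2 * (univ.filter fun i : Fin N => ¬ T ω i ≤ κ).card := by
            have := hω.2
            omega
          have h9 : (N : ℝ) ≤ 2 * ((univ.filter fun i : Fin N => ¬ T ω i ≤ κ).card : ℝ) := by
            exact_mod_cast h8
          linarith
      _ ≤ _ := sum_le_sum_of_subset_of_nonneg (filter_subset _ _) fun ω _ _ => Nat.cast_nonneg _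
  have hN0 : (0 : ℝ) < (N : ℝ) / 2 := by
    have : (1 : ℝ) ≤ N := by exact_mod_cast hN
    linarith
  have e5 : (N : ℝ) * (M / 8) = 1 / 4 * M * ((N : ℝ) / 2) := by ring
  rw [e5] at h6
  exact le_of_mul_le_mul_right h6 hN0

theorem p_evh : S_evh := by
  intro hmean hcls hdiam V _ G K N κ a Cs s Rm r1 r2 tc r4 ρ LT ε0 ε2 ε3 η η' Ω _ Ω₀ Q e C GG μ
    X _ F ctx
  have hm := hmean hcls hdiam V G K N κ a Cs s Rm r1 r2 tc r4 ρ LT ε0 ε2 ε3 η η' Ω Ω₀ Q e C GG μ
    X F ctx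
  have hκ : (0 : ℝ) < κ := by
    have := ctx.num.κ1
    exact_mod_cast (by omega : 0 < κ)
  have hCs : max Cs 0 * K / 2 ≤ (κ : ℝ) / 8 := by
    rcases le_total Cs 0 with h | h
    · rw [max_eq_right h]
      have : (0 : ℝ) < κ / 8 := by positivity
      linarith
    · rw [max_eq_left h]
      have := ctx.num.κC
      linarith
  have key := evh_markov Ω₀ N ctx.hN
    (fun ω i => ∑ x ∈ Xi G N Q e μ F r2 ε0 LT η η' ω i,
      (1 : ℝ) / ((isoC G r2 μ (F x) (η / Fintype.card V) (η' / Fintype.card V)).card : ℝ))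
    (fun ω i => sum_nonneg fun x _ => by positivity) κ (Fintype.card Ω) hκ
    (fun i => (hm i).trans (mul_le_mul_of_nonneg_right hCs (Nat.cast_nonneg _)))
  refine le_trans (le_of_eq ?_) key
  congr 2
  ext ω
  rw [mem_filter, mem_filter]
  exact Iff.rfl

end Pool.Agent.Lib.MP_fce888_co
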