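import Pool.Agent.Lib.MP_fce888_co.C.Core.Stm

set_option autoImplicit false

/-!
# MP_fce888_co, 4.1-4.4: piece `heavy`
-/

namespace Pool.Agent.Lib.MP_fce888_co

open Finset
open scoped Classical

theorem p_heavy : S_heavy := by
  intro V _ μ F L δ hμ hF
  set H : Finset (Sym2 V) := (univ : Finset (Sym2 V)).filter
    fun e => δ ≤ mas μ F (fun D => e ∈ D) with hH
  have h1 : (H.card : ℝ) * δ ≤ ∑ e ∈ H, mas μ F (fun D => e ∈ D) := by
    rw [← nsmul_eq_mul]
    exact card_nsmul_le_sum _ _ _ fun e he => (mem_filter.1 he).2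
  have h2 : ∑ e ∈ H, mas μ F (fun D => e ∈ D) ≤ ∑ e : Sym2 V, mas μ F (fun D => e ∈ D) :=
    sum_le_sum_of_subset_of_nonneg (subset_univ _)
      fun e _ _ => sum_nonneg fun D _ => hμ D
  have h3 : ∑ e : Sym2 V, mas μ F (fun D => e ∈ D) = ∑ D ∈ F, (D.card : ℝ) * μ D := by
    unfold mas
    simp_rw [sum_filter]
    rw [sum_comm]
    refine sum_congr rfl fun D _ => ?_
    have h6 : (∑ e : Sym2 V, (if e ∈ D then (1 : ℝ) else 0)) = (D.card : ℝ) := by
      simp
    rw [mul_comm, ← h6, mul_sum]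
    refine sum_congr rfl fun e _ => ?_
    by_cases h : e ∈ D
    · rw [if_pos h, if_pos h, mul_one]
    · rw [if_neg h, if_neg h, mul_zero]
  have h4 : ∑ D ∈ F, (D.card : ℝ) * μ D ≤ ∑ D ∈ F, (2 * L : ℝ) * μ D := by
    refine sum_le_sum fun D hD => mul_le_mul_of_nonneg_right ?_ (hμ D)
    exact_mod_cast hF D hD
  rw [mul_sum]
  linarith

end Pool.Agent.Lib.MP_fce888_co
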