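import Pool.Agent.Lib.MP_fce888_co.C.Core.Stm

set_option autoImplicit false
set_option linter.unusedVariables false

/-!
# MP_fce888_co, 4.1-4.4: piece hmean
-/

namespace Pool.Agent.Lib.MP_fce888_co

open Finset
open scoped Classical

private theorem two_mul_le_pow (m : ℕ) : 2 * m ≤ 2 ^ m := by
  induction m with
  | zero => norm_num
  | succ m ih =>
    rcases m with _ | m
    · norm_num
    · have : 2 ≤ 2 ^ (m + 1) := by
        have := Nat.one_le_two_pow (n := m)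
        rw [pow_succ]; omega
      rw [pow_succ]
      omega

private theorem mul_half_pow (m : ℕ) : (m : ℝ) * (1 / 2) ^ m ≤ 1 / 2 := by
  have h : ((2 * m : ℕ) : ℝ) ≤ ((2 ^ m : ℕ) : ℝ) := by exact_mod_cast two_mul_le_pow m
  push_cast at h
  rw [div_pow, one_pow, mul_one_div, div_le_iff₀ (by positivity)]
  linarith

/-- elements of a class -/
private theorem cls_sub_rel {V : Type} [Fintype V] {μ : Finset (Sym2 V) → ℝ}
    {F : Finset (Finset (Sym2 V))} {t t' : ℝ} {e g : Sym2 V} (h : g ∈ cls μ F t t' e) :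
    g ∈ rel μ F t t' := (mem_filter.1 h).1

theorem p_hmean : S_hmean := by
  intro hcls hdiam V _ G K N κ0 a Cs s Rm r1 r2 tc r4 ρ LT ε0 ε2 ε3 η η' Ω _ Ω₀ Q e C GG μ X _ F ctx i
  have hn : (0 : ℝ) < Fintype.card V := by exact_mod_cast ctx.hn
  set n : ℕ := Fintype.card V with hn'
  have hmu : Mu G (rr n) ((lam n : ℝ) ^ a) GG μ :=
    ⟨ctx.str.mu_nonneg, ctx.str.mu_mass, ctx.str.lawM⟩
  have hη : 0 < η / (n : ℝ) := div_pos ctx.ηpos hn
  have hη2 : 2 * (η / (n : ℝ)) < η' / (n : ℝ) := by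
    rw [← mul_div_assoc]
    exact div_lt_div_of_pos_right ctx.num.ηη' hn
  set Cs' : ℝ := max Cs 0 with hCs'
  have hCs0 : 0 ≤ Cs' := le_max_right _ _
  have hCs1 : Cs ≤ Cs' := le_max_left _ _
  -- the single terms
  have hterm : ∀ x : X, ∀ κ ∈ isoC G r2 μ (F x) (η / n) (η' / n), ∀ g ∈ κ,
      ((Ω₀.filter fun ω => e ω i = g ∧ κ ⊆ Q ω i).card : ℝ) ≤
        Cs' * (1 / 2) ^ κ.card / n * Fintype.card Ω := by
    intro x κ hκ g hg
    have h1 := ctx.str.law2 i g κ hg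
    refine (h1 ?_).trans ?_
    · unfold isoC at hκ
      rw [mem_image] at hκ
      obtain ⟨e0, he0, rfl⟩ := hκ
      have he0r := (mem_filter.1 he0).1
      obtain ⟨c1, c2, -, -⟩ := hcls V μ (F x) (η / n) (η' / n) ctx.str.mu_nonneg hη hη2
      have hceq := c2 e0 he0r g hg
      intro h hh u hu v hv
      rw [← hceq] at hh
      have := hdiam hcls V G (rr n) r1 ((lam n : ℝ) ^ a) η η' GG (F x) μ hmu (ctx.sub x) ctx.ηpos
        ctx.num.ηη' (by positivity) ctx.num.r1r ctx.num.class_diam g (cls_sub_rel hg) h hh v hv u hu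
      rw [SimpleGraph.dist_comm]
      exact this.trans ctx.num.r1r.le
    · rw [← hn']
      gcongr
  -- one `ω`
  have key : ∀ ω ∈ Ω₀, ∑ x ∈ Xi G N Q e μ F r2 ε0 LT η η' ω i,
      (1 : ℝ) / ((isoC G r2 μ (F x) (η / n) (η' / n)).card : ℝ) ≤
      ∑ x : X, ∑ κ ∈ isoC G r2 μ (F x) (η / n) (η' / n), ∑ g ∈ κ,
        (if e ω i = g ∧ κ ⊆ Q ω i then
          (1 : ℝ) / ((isoC G r2 μ (F x) (η / n) (η' / n)).card : ℝ) else 0) := by
    intro ω _
    have hnn : ∀ x : X, ∀ κ ∈ isoC G r2 μ (F x) (η / n) (η' / n), ∀ g ∈ κ,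
        (0 : ℝ) ≤ (if e ω i = g ∧ κ ⊆ Q ω i then
          (1 : ℝ) / ((isoC G r2 μ (F x) (η / n) (η' / n)).card : ℝ) else 0) := by
      intro x κ _ g _
      split_ifs <;> positivity
    refine le_trans (sum_le_sum (fun x hx => ?_)) (sum_le_sum_of_subset_of_nonneg (subset_univ _)
      (fun x _ _ => sum_nonneg fun κ hκ => sum_nonneg fun g hg => hnn x κ hκ g hg))
    unfold Xi at hx
    rw [mem_filter] at hx
    obtain ⟨-, -, κ, hκ, heκ, hκQ⟩ := hx
    refine le_trans ?_ (single_le_sum (f := fun κ => ∑ g ∈ κ, (if e ω i = g ∧ κ ⊆ Q ω i then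
          (1 : ℝ) / ((isoC G r2 μ (F x) (η / n) (η' / n)).card : ℝ) else 0))
      (fun κ hκ => sum_nonneg fun g hg => hnn x κ hκ g hg) hκ)
    refine le_trans ?_ (single_le_sum (f := fun g => (if e ω i = g ∧ κ ⊆ Q ω i then
          (1 : ℝ) / ((isoC G r2 μ (F x) (η / n) (η' / n)).card : ℝ) else 0))
      (fun g hg => hnn x κ hκ g hg) heκ)
    simp [hκQ]
  refine (sum_le_sum key).trans ?_
  rw [sum_comm]
  have hx : ∀ x : X, ∑ ω ∈ Ω₀, ∑ κ ∈ isoC G r2 μ (F x) (η / n) (η' / n), ∑ g ∈ κ,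
        (if e ω i = g ∧ κ ⊆ Q ω i then
          (1 : ℝ) / ((isoC G r2 μ (F x) (η / n) (η' / n)).card : ℝ) else 0) ≤
      Cs' / 2 / n * Fintype.card Ω := by
    intro x
    rw [sum_comm]
    have hκ1 : ∀ κ ∈ isoC G r2 μ (F x) (η / n) (η' / n), ∑ ω ∈ Ω₀, ∑ g ∈ κ,
        (if e ω i = g ∧ κ ⊆ Q ω i then
          (1 : ℝ) / ((isoC G r2 μ (F x) (η / n) (η' / n)).card : ℝ) else 0) ≤
        Cs' / 2 / n * Fintype.card Ω *
          (1 / ((isoC G r2 μ (F x) (η / n) (η' / n)).card : ℝ)) := by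
      intro κ hκ
      rw [sum_comm]
      calc ∑ g ∈ κ, ∑ ω ∈ Ω₀, (if e ω i = g ∧ κ ⊆ Q ω i then
            (1 : ℝ) / ((isoC G r2 μ (F x) (η / n) (η' / n)).card : ℝ) else 0)
          = ∑ g ∈ κ, ((Ω₀.filter fun ω => e ω i = g ∧ κ ⊆ Q ω i).card : ℝ) *
            (1 / ((isoC G r2 μ (F x) (η / n) (η' / n)).card : ℝ)) := by
            refine sum_congr rfl fun g _ => ?_
            rw [← sum_filter, sum_const, nsmul_eq_mul]
        _ ≤ ∑ g ∈ κ, (Cs' * (1 / 2) ^ κ.card / n * Fintype.card Ω) *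
            (1 / ((isoC G r2 μ (F x) (η / n) (η' / n)).card : ℝ)) := by
            refine sum_le_sum fun g hg => ?_
            exact mul_le_mul_of_nonneg_right (hterm x κ hκ g hg) (by positivity)
        _ = (Cs' / n * Fintype.card Ω * (1 / ((isoC G r2 μ (F x) (η / n) (η' / n)).card : ℝ))) *
            ((κ.card : ℝ) * (1 / 2) ^ κ.card) := by
            rw [sum_const, nsmul_eq_mul]; ring
        _ ≤ (Cs' / n * Fintype.card Ω * (1 / ((isoC G r2 μ (F x) (η / n) (η' / n)).card : ℝ))) *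
            (1 / 2) := mul_le_mul_of_nonneg_left (mul_half_pow _) (by positivity)
        _ = _ := by ring
    refine (sum_le_sum hκ1).trans ?_
    rw [sum_const, nsmul_eq_mul]
    have h0 : (0 : ℝ) ≤ Cs' / 2 / n * Fintype.card Ω := by positivity
    rcases Nat.eq_zero_or_pos (isoC G r2 μ (F x) (η / n) (η' / n)).card with h | h
    · rw [h]; simpa using h0
    · have h' : (0 : ℝ) < ((isoC G r2 μ (F x) (η / n) (η' / n)).card : ℝ) := by exact_mod_cast h
      refine le_of_eq ?_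
      field_simp
  refine (sum_le_sum fun x _ => hx x).trans ?_
  rw [sum_const, nsmul_eq_mul, card_univ]
  have hX : (Fintype.card X : ℝ) ≤ K * n := by exact_mod_cast ctx.cardX
  calc (Fintype.card X : ℝ) * (Cs' / 2 / n * Fintype.card Ω)
      ≤ (K * n) * (Cs' / 2 / n * Fintype.card Ω) := by gcongr
    _ = Cs' * K / 2 * Fintype.card Ω := by field_simp

end Pool.Agent.Lib.MP_fce888_co
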