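import Pool.Agent.Lib.MP_fce888_co.C.Core.Stm

set_option autoImplicit false

/-!
# MP_fce888_co, piece lawA: conditioning
-/

namespace Pool.Agent.Lib.MP_fce888_co

open Finset
open scoped Classical

theorem p_lawA : S_lawA := by
  intro V _ G r Λ ε3 GG μ hMu hΛ hε3 hn e1 e2 z S hSG hS hmass
  have hnR : (0 : ℝ) < Fintype.card V := by exact_mod_cast hn
  have hlow : 0 < ε3 / Fintype.card V := div_pos hε3 hnR
  set m : ℝ := ∑ D ∈ S, μ D with hm
  have hmpos : 0 < m := lt_of_lt_of_le hlow hmass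
  have hfS : ∀ D ∈ S, (if D ∈ S then μ D / m else 0) = μ D / m := fun D hD => if_pos hD
  refine ⟨fun D => if D ∈ S then μ D / m else 0, ?_⟩
  refine ⟨⟨fun D => ?_, fun D hD => if_neg hD, ?_⟩, fun D hD => (hS D hD).1,
    fun D hD => (hS D hD).2.1, fun D hD => (hS D hD).2.2, fun u => ?_⟩
  · show 0 ≤ if D ∈ S then μ D / m else 0
    split_ifs
    · exact div_nonneg (hMu.nonneg D) hmpos.le
    · exact le_rfl
  · rw [sum_congr rfl hfS, ← sum_div, ← hm, div_self hmpos.ne']
  · have h1 : ∑ D ∈ S.filter (fun D => u ∈ vs D), (if D ∈ S then μ D / m else 0) =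
        (∑ D ∈ S.filter (fun D => u ∈ vs D), μ D) / m := by
      rw [sum_div]
      exact sum_congr rfl fun D hD => if_pos (mem_filter.1 hD).1
    have h2 : ∑ D ∈ S.filter (fun D => u ∈ vs D), μ D ≤
        ∑ D ∈ GG.filter (fun D => u ∈ vs D ∧ z ∈ vs D), μ D := by
      refine sum_le_sum_of_subset_of_nonneg ?_ fun D _ _ => hMu.nonneg D
      intro D hD
      obtain ⟨h3, h4⟩ := mem_filter.1 hD
      exact mem_filter.2 ⟨hSG h3, h4, (hS D h3).1⟩
    have h5 := h2.trans (hMu.lawM u z)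
    show ∑ D ∈ S.filter (fun D => u ∈ vs D), (if D ∈ S then μ D / m else 0) ≤ _
    rw [h1, div_le_iff₀ hmpos]
    refine h5.trans ?_
    set p : ℝ := (1 / 2) ^ (min (G.dist u z) r / 2) with hp
    have hp0 : 0 ≤ p := by positivity
    calc Λ * p / Fintype.card V = Λ / ε3 * p * (ε3 / Fintype.card V) := by
          field_simp
      _ ≤ Λ / ε3 * p * m := mul_le_mul_of_nonneg_left hmass (by positivity)

end Pool.Agent.Lib.MP_fce888_co
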