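import Pool.Agent.Lib.MP_fce888_co.C.Core.Stm

set_option autoImplicit false

/-!
# MP_fce888_co, 4.4: PIECE lawB
-/

namespace Pool.Agent.Lib.MP_fce888_co

open Finset
open scoped Classical

private theorem lawB_mem {α : Type} {p : α → Prop} {i : DecidablePred p} {s : Finset α} {a : α} :
    a ∈ @filter α p i s ↔ a ∈ s ∧ p a := @mem_filter α p i s a

private theorem lawB_sum {V : Type} [Fintype V] (μ : Finset (Sym2 V) → ℝ)
    (S T : Finset (Finset (Sym2 V))) (m : ℝ) (hT : T ⊆ S) :
    ∑ D ∈ T, (if D ∈ S then μ D / m else 0) = (∑ D ∈ T, μ D) / m := by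
  rw [sum_div]
  exact sum_congr rfl fun D hD => if_pos (hT hD)

theorem p_lawB : S_lawB := by
  intro V _ ε0 ε2 F μ hμ hε0 hε2 hn hm
  set S := dif μ F (ε2 / Fintype.card V) with hS
  have hnR : (0 : ℝ) < Fintype.card V := by exact_mod_cast hn
  set m := ∑ D ∈ S, μ D with hmdef
  have hmpos : 0 < m := lt_of_lt_of_le (div_pos hε0 hnR) hm
  refine ⟨fun D => if D ∈ S then μ D / m else 0, ⟨⟨?_, ?_, ?_⟩, ?_⟩⟩
  · intro D
    show 0 ≤ (if D ∈ S then μ D / m else 0)
    split_ifs
    · exact div_nonneg (hμ D) hmpos.le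
    · exact le_refl _
  · intro D hD
    exact if_neg hD
  · rw [lawB_sum μ S S m (Subset.refl _)]
    exact div_self hmpos.ne'
  · intro u
    rw [lawB_sum μ S _ m (filter_subset _ _)]
    by_cases he : (S.filter fun D => u ∈ vs D) = ∅
    · rw [he, sum_empty, zero_div]
      positivity
    · obtain ⟨D0, hD0⟩ := nonempty_iff_ne_empty.2 he
      obtain ⟨h1, h2⟩ := mem_filter.1 hD0
      have h3 := (mem_filter.1 h1).2 u h2
      have h4 : ∑ D ∈ S.filter (fun D => u ∈ vs D), μ D ≤ ε2 / Fintype.card V := by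
        refine le_trans ?_ h3.le
        unfold mas
        refine sum_le_sum_of_subset_of_nonneg ?_ (fun D _ _ => hμ D)
        intro D hD
        obtain ⟨h5, h6⟩ := mem_filter.1 hD
        exact lawB_mem.2 ⟨(mem_filter.1 h5).1, h6⟩
      rw [div_le_iff₀ hmpos]
      calc ∑ D ∈ S.filter (fun D => u ∈ vs D), μ D ≤ ε2 / Fintype.card V := h4
        _ = ε2 / ε0 * (ε0 / Fintype.card V) := by
          field_simp
        _ ≤ ε2 / ε0 * m := mul_le_mul_of_nonneg_left hm (by positivity)

end Pool.Agent.Lib.MP_fce888_co
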