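import Pool.Agent.Lib.MP_fce888_co.C.Core.Stm

set_option autoImplicit false

/-!
# MP_fce888_co, section C: a point of the sample space in all the good events
-/

namespace Pool.Agent.Lib.MP_fce888_co

open Finset
open scoped Classical

theorem p_omega : S_omega := by
  intro hub hheavy hcls hdiam hevb hevc hevd heve hevf hevg hhmean hevh
  intro V _ G K N κ a Cs s Rm r1 r2 tc r4 ρ LT ε0 ε2 ε3 η η' Ω _ Ω₀ Q e C GG μ X _ F hctx
  have b1 := hevb hub V G K N κ a Cs s Rm r1 r2 tc r4 ρ LT ε0 ε2 ε3 η η' Ω Ω₀ Q e C GG μ X F hctx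
  have b2 := hevc V G K N κ a Cs s Rm r1 r2 tc r4 ρ LT ε0 ε2 ε3 η η' Ω Ω₀ Q e C GG μ X F hctx
  have b3 := hevd hub V G K N κ a Cs s Rm r1 r2 tc r4 ρ LT ε0 ε2 ε3 η η' Ω Ω₀ Q e C GG μ X F hctx
  have b4 := heve hub hheavy V G K N κ a Cs s Rm r1 r2 tc r4 ρ LT ε0 ε2 ε3 η η' Ω Ω₀ Q e C GG μ
    X F hctx
  have b5 := hevf hub hheavy V G K N κ a Cs s Rm r1 r2 tc r4 ρ LT ε0 ε2 ε3 η η' Ω Ω₀ Q e C GG μ
    X F hctx
  have b6 := hevg hub hheavy hcls V G K N κ a Cs s Rm r1 r2 tc r4 ρ LT ε0 ε2 ε3 η η' Ω Ω₀ Q e C GG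
    μ X F hctx
  have b7 := hevh hhmean hcls hdiam V G K N κ a Cs s Rm r1 r2 tc r4 ρ LT ε0 ε2 ε3 η η' Ω Ω₀ Q e C
    GG μ X F hctx
  simp only at b1 b2 b3 b4 b5 b6 b7
  have h0 := hctx.str.prob
  have := hctx.str.ne
  have hΩ : (0 : ℝ) < (Fintype.card Ω : ℝ) := by
    exact_mod_cast Fintype.card_pos
  by_contra hcon
  push Not at hcon
  have hsub : Ω₀ ⊆ (Ω₀.filter fun ω => ¬ Evb N C μ F ε0 ω) ∪
      ((Ω₀.filter fun ω => ¬ Evc N C μ F ε0 LT s ω) ∪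
      ((Ω₀.filter fun ω => ¬ Evd N C μ F ε0 ε2 LT ω) ∪
      ((Ω₀.filter fun ω => ¬ Eve N e μ F ε0 ε3 LT ω) ∪
      ((Ω₀.filter fun ω => ¬ Evf N e C μ F ε0 ε2 LT η η' ω) ∪
      ((Ω₀.filter fun ω => ¬ Evg N C μ F ε0 LT η η' ω) ∪
      (Ω₀.filter fun ω => ¬ Evh G N Q e μ F r2 κ ε0 LT η η' ω)))))) := by
    intro ω hω
    by_cases c1 : Evb N C μ F ε0 ω
    swap
    · exact Finset.mem_union_left _ (Finset.mem_filter.2 ⟨hω, c1⟩)
    refine Finset.mem_union_right _ ?_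
    by_cases c2 : Evc N C μ F ε0 LT s ω
    swap
    · exact Finset.mem_union_left _ (Finset.mem_filter.2 ⟨hω, c2⟩)
    refine Finset.mem_union_right _ ?_
    by_cases c3 : Evd N C μ F ε0 ε2 LT ω
    swap
    · exact Finset.mem_union_left _ (Finset.mem_filter.2 ⟨hω, c3⟩)
    refine Finset.mem_union_right _ ?_
    by_cases c4 : Eve N e μ F ε0 ε3 LT ω
    swap
    · exact Finset.mem_union_left _ (Finset.mem_filter.2 ⟨hω, c4⟩)
    refine Finset.mem_union_right _ ?_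
    by_cases c5 : Evf N e C μ F ε0 ε2 LT η η' ω
    swap
    · exact Finset.mem_union_left _ (Finset.mem_filter.2 ⟨hω, c5⟩)
    refine Finset.mem_union_right _ ?_
    by_cases c6 : Evg N C μ F ε0 LT η η' ω
    swap
    · exact Finset.mem_union_left _ (Finset.mem_filter.2 ⟨hω, c6⟩)
    refine Finset.mem_union_right _ ?_
    exact Finset.mem_filter.2 ⟨hω, hcon ω hω c1 c2 c3 c4 c5 c6⟩
  have e1 := Finset.card_le_card hsub
  have e2 := fun (A B : Finset Ω) => Finset.card_union_le A B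
  have e3 := e1.trans ((e2 _ _).trans (Nat.add_le_add_left ((e2 _ _).trans
    (Nat.add_le_add_left ((e2 _ _).trans (Nat.add_le_add_left ((e2 _ _).trans
    (Nat.add_le_add_left ((e2 _ _).trans (Nat.add_le_add_left (e2 _ _) _)) _)) _)) _)) _))
  have e4 : (Ω₀.card : ℝ) ≤ ((Ω₀.filter fun ω => ¬ Evb N C μ F ε0 ω).card : ℝ) +
      (((Ω₀.filter fun ω => ¬ Evc N C μ F ε0 LT s ω).card : ℝ) +
      (((Ω₀.filter fun ω => ¬ Evd N C μ F ε0 ε2 LT ω).card : ℝ) +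
      (((Ω₀.filter fun ω => ¬ Eve N e μ F ε0 ε3 LT ω).card : ℝ) +
      (((Ω₀.filter fun ω => ¬ Evf N e C μ F ε0 ε2 LT η η' ω).card : ℝ) +
      (((Ω₀.filter fun ω => ¬ Evg N C μ F ε0 LT η η' ω).card : ℝ) +
      ((Ω₀.filter fun ω => ¬ Evh G N Q e μ F r2 κ ε0 LT η η' ω).card : ℝ)))))) := by
    exact_mod_cast e3
  linarith

end Pool.Agent.Lib.MP_fce888_co
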