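import Pool.Agent.Lib.MP_fce888_co.C.Core.Stm

set_option autoImplicit false

namespace Pool.Agent.Lib.MP_fce888_co

open Finset
open scoped Classical

theorem p_ramapp : S_ramapp := by
  intro N m hR X I Y s hI hY
  let φ : Fin N → X → ℕ := fun i x => if h : x ∈ Y i then ((Y i).equivFin ⟨x, h⟩ : ℕ) else 0
  have hφlt : ∀ i ∈ I, ∀ x ∈ Y i, φ i x < m := by
    intro i hi x hx
    have h1 : φ i x = ((Y i).equivFin ⟨x, hx⟩ : ℕ) := dif_pos hx
    rw [h1]
    exact lt_of_lt_of_le ((Y i).equivFin ⟨x, hx⟩).2 (hY i hi)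
  have hφinj : ∀ i, ∀ x ∈ Y i, ∀ x' ∈ Y i, φ i x = φ i x' → x = x' := by
    intro i x hx x' hx' h
    have h1 : φ i x = ((Y i).equivFin ⟨x, hx⟩ : ℕ) := dif_pos hx
    have h2 : φ i x' = ((Y i).equivFin ⟨x', hx'⟩ : ℕ) := dif_pos hx'
    rw [h1, h2] at h
    have h3 := (Y i).equivFin.injective (Fin.ext h)
    exact congrArg Subtype.val h3
  let code : Fin N → Finset X → Finset (Fin m) := fun i A =>
    univ.filter fun t => ∃ x ∈ A, x ∈ Y i ∧ φ i x = (t : ℕ)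
  have hcode : ∀ i ∈ I, ∀ A B : Finset X, code i A = code i B → ∀ x ∈ Y i, x ∈ A → x ∈ B := by
    intro i hi A B hAB x hx hxA
    have h1 : (⟨φ i x, hφlt i hi x hx⟩ : Fin m) ∈ code i A :=
      Finset.mem_filter.mpr ⟨Finset.mem_univ _, x, hxA, hx, rfl⟩
    rw [hAB] at h1
    obtain ⟨-, x', hx'B, hx', h2⟩ := Finset.mem_filter.mp h1
    have h3 := hφinj i x' hx' x hx h2
    exact h3 ▸ hx'B
  obtain ⟨i, hi, j, hj, k, hk, hij, hjk, h1, h2⟩ :=
    hR I hI (fun i k => (code i (s i k), code k (s i k)))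
  refine ⟨i, hi, j, hj, k, hk, hij, hjk, ?_, ?_⟩
  · intro x hx hxs
    exact hcode i hi _ _ (congrArg Prod.fst h1).symm x hx hxs
  · intro x hx hxs
    exact hcode k hk _ _ (congrArg Prod.snd h2).symm x hx hxs

end Pool.Agent.Lib.MP_fce888_co
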