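import Pool.Agent.Lib.MP_fce888_co.C.Core.Stm

set_option autoImplicit false

/-!
# MP_fce888_co, section C: the triangle
-/

namespace Pool.Agent.Lib.MP_fce888_co

open Finset
open scoped Classical

theorem p_tri : S_tri := by
  intro V _ G N L r Cs Λ Ω _ Ω₀ Q e C GG μ h ω hω i j k hij hik hjk
  exact
    { good := h.good
      memC := h.mem ω hω i k hik
      memC1 := h.mem ω hω i j hij
      memC2 := h.mem ω hω j k hjk
      ne := by
        intro he
        obtain ⟨u, hu⟩ : ∃ u, u ∈ e ω i := ⟨_, Sym2.out_fst_mem (e ω i)⟩
        have h1 := h.e_far ω hω i k hik u hu u (he ▸ hu)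
        rw [SimpleGraph.dist_self] at h1
        omega
      e1C := h.e_mem ω hω i k hik
      e2C := by
        rw [h.symm ω hω i k]
        exact h.e_mem ω hω k i hik.symm
      e1C1 := h.e_mem ω hω i j hij
      e2C1 := h.e_notMem ω hω k i j hik.symm hjk.symm hij
      e2C2 := by
        rw [h.symm ω hω j k]
        exact h.e_mem ω hω k j hjk.symm
      e1C2 := h.e_notMem ω hω i j k hij hik hjk
      subC := by
        intro g hg
        rcases Finset.mem_union.1 (h.sub_theta ω hω i k hik hg) with h1 | h1
        · exact Finset.mem_union_left _ (Finset.mem_union_left _ h1)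
        · exact Finset.mem_union_right _ h1
      subC1 := by
        intro g hg
        rcases Finset.mem_union.1 (h.sub_theta ω hω i j hij hg) with h1 | h1
        · exact Finset.mem_union_left _ (Finset.mem_union_left _ h1)
        · exact Finset.mem_union_left _ (Finset.mem_union_right _ h1)
      subC2 := by
        intro g hg
        rcases Finset.mem_union.1 (h.sub_theta ω hω j k hjk hg) with h1 | h1
        · exact Finset.mem_union_left _ (Finset.mem_union_right _ h1)
        · exact Finset.mem_union_right _ h1
      edges := by
        intro g hg
        rcases Finset.mem_union.1 hg with h1 | h1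
        · rcases Finset.mem_union.1 h1 with h2 | h2
          · exact h.theta_edges ω hω i g h2
          · exact h.theta_edges ω hω j g h2
        · exact h.theta_edges ω hω k g h1
      card := h.theta_card ω hω i j k
      acy := h.theta_acy ω hω i j k hij hik hjk
      nt := h.theta_nt ω hω i j k hij hik hjk }

end Pool.Agent.Lib.MP_fce888_co
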