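import Pool.Agent.Lib.MP_fce888_co.C.Core.Stm

set_option autoImplicit false

namespace Pool.Agent.Lib.MP_fce888_co

open Finset
open scoped Classical

theorem p_ub : S_ub := by
  intro V _ N Ω _ Ω₀ C μ hC Y J DD b hb hDD
  set T : Finset (Fin N × Fin N) := univ.filter fun p => p.1 ≠ p.2 with hT
  have hsub : (Ω₀.filter fun ω => ∃ i k, i ≠ k ∧ ∃ y ∈ J, C ω i k ∈ DD y) ⊆
      T.biUnion fun p => J.biUnion fun y => Ω₀.filter fun ω => C ω p.1 p.2 ∈ DD y := by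
    intro ω hω
    obtain ⟨h0, i, k, hik, y, hy, hm⟩ := Finset.mem_filter.1 hω
    refine Finset.mem_biUnion.2 ⟨(i, k), ?_, Finset.mem_biUnion.2 ⟨y, hy, ?_⟩⟩
    · rw [hT]; exact Finset.mem_filter.2 ⟨Finset.mem_univ _, hik⟩
    · exact Finset.mem_filter.2 ⟨h0, hm⟩
  have h1 : ((Ω₀.filter fun ω => ∃ i k, i ≠ k ∧ ∃ y ∈ J, C ω i k ∈ DD y).card : ℝ) ≤
      ∑ p ∈ T, ∑ y ∈ J, ((Ω₀.filter fun ω => C ω p.1 p.2 ∈ DD y).card : ℝ) := by
    have h2 : (Ω₀.filter fun ω => ∃ i k, i ≠ k ∧ ∃ y ∈ J, C ω i k ∈ DD y).card ≤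
        ∑ p ∈ T, ∑ y ∈ J, (Ω₀.filter fun ω => C ω p.1 p.2 ∈ DD y).card := by
      refine (Finset.card_le_card hsub).trans (Finset.card_biUnion_le.trans ?_)
      exact Finset.sum_le_sum fun p _ => Finset.card_biUnion_le
    exact_mod_cast h2
  refine h1.trans ?_
  have h3 : ∀ p ∈ T, ∑ y ∈ J, ((Ω₀.filter fun ω => C ω p.1 p.2 ∈ DD y).card : ℝ) ≤
      J.card * (b * Fintype.card Ω) := by
    intro p hp
    have hp' : p.1 ≠ p.2 := by
      rw [hT] at hp; exact (Finset.mem_filter.1 hp).2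
    calc ∑ y ∈ J, ((Ω₀.filter fun ω => C ω p.1 p.2 ∈ DD y).card : ℝ)
        ≤ ∑ y ∈ J, b * Fintype.card Ω := by
          refine Finset.sum_le_sum fun y hy => ?_
          exact (hC p.1 p.2 hp' (DD y)).trans
            (mul_le_mul_of_nonneg_right (hDD y hy) (Nat.cast_nonneg _))
      _ = J.card * (b * Fintype.card Ω) := by rw [Finset.sum_const, nsmul_eq_mul]
  have hTc : (T.card : ℝ) ≤ (N : ℝ) ^ 2 := by
    have h4 : T.card ≤ N ^ 2 := by
      refine (Finset.card_le_univ T).trans ?_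
      rw [Fintype.card_prod, Fintype.card_fin, sq]
    exact_mod_cast h4
  have hnn : 0 ≤ (J.card : ℝ) * (b * Fintype.card Ω) := by positivity
  calc ∑ p ∈ T, ∑ y ∈ J, ((Ω₀.filter fun ω => C ω p.1 p.2 ∈ DD y).card : ℝ)
      ≤ ∑ p ∈ T, (J.card : ℝ) * (b * Fintype.card Ω) := Finset.sum_le_sum h3
    _ = T.card * (J.card * (b * Fintype.card Ω)) := by rw [Finset.sum_const, nsmul_eq_mul]
    _ ≤ (N : ℝ) ^ 2 * (J.card * (b * Fintype.card Ω)) := mul_le_mul_of_nonneg_right hTc hnn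
    _ = _ := by ring

end Pool.Agent.Lib.MP_fce888_co
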