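import Pool.Agent.Lib.MP_fce888_co.C.Core.Main
import Pool.Agent.Lib.MP_fce888_co.C.Core.P_heavy
import Pool.Agent.Lib.MP_fce888_co.C.Core.P_cls
import Pool.Agent.Lib.MP_fce888_co.C.Core.P_diam
import Pool.Agent.Lib.MP_fce888_co.C.Core.P_lawA
import Pool.Agent.Lib.MP_fce888_co.C.Core.P_lawB
import Pool.Agent.Lib.MP_fce888_co.C.Core.P_ramapp
import Pool.Agent.Lib.MP_fce888_co.C.Core.P_ub
import Pool.Agent.Lib.MP_fce888_co.C.Core.P_evb
import Pool.Agent.Lib.MP_fce888_co.C.Core.P_evc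
import Pool.Agent.Lib.MP_fce888_co.C.Core.P_evd
import Pool.Agent.Lib.MP_fce888_co.C.Core.P_eve
import Pool.Agent.Lib.MP_fce888_co.C.Core.P_evf
import Pool.Agent.Lib.MP_fce888_co.C.Core.P_evg
import Pool.Agent.Lib.MP_fce888_co.C.Core.P_hmean
import Pool.Agent.Lib.MP_fce888_co.C.Core.P_evh
import Pool.Agent.Lib.MP_fce888_co.C.Core.P_omega
import Pool.Agent.Lib.MP_fce888_co.C.Core.P_tri
import Pool.Agent.Lib.MP_fce888_co.C.Core.P_case
import Pool.Agent.Lib.MP_fce888_co.C.Core.P_lock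
import Pool.Agent.Lib.MP_fce888_co.C.Core.P_descr

set_option autoImplicit false

/-!
# MP_fce888_co, 4.1-4.4: `CoreStatement`
-/

namespace Pool.Agent.Lib.MP_fce888_co

theorem coreStatement : CoreStatement :=
  core_assembly p_heavy p_cls p_diam p_lawA p_lawB p_ramapp p_ub p_evb p_evc p_evd p_eve p_evf p_evg
    p_hmean p_evh p_omega p_tri p_case p_lock p_descr

end Pool.Agent.Lib.MP_fce888_co
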