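import Pool.Agent.Lib.MP_fce888_co.C.Core.Stm
import Pool.Agent.Lib.MP_fce888_co.C.Assembly

set_option autoImplicit false
set_option linter.unusedVariables false

/-!
# MP_fce888_co, 4.1-4.4: assembly of `CoreStatement` from the pieces
-/

namespace Pool.Agent.Lib.MP_fce888_co

open Finset
open scoped Classical

theorem LawA.swap {V : Type} [Fintype V] {G : SimpleGraph V} {r : ℕ} {T0 : ℝ} {e1 e2 : Sym2 V}
    {z : V} {S : Finset (Finset (Sym2 V))} {f : Finset (Sym2 V) → ℝ}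
    (h : LawA G r T0 e1 e2 z S f) : LawA G r T0 e2 e1 z S f :=
  ⟨h.law, h.centre, h.e2n, h.e1n, h.tau⟩

theorem Descr.swap {V : Type} [Fintype V] {G : SimpleGraph V} {r r2 tc : ℕ} {T0 : ℝ}
    {Th : Finset (Sym2 V)} {e1 e2 : Sym2 V} {F : Finset (Finset (Sym2 V))} {t : ℕ} {inX : Prop}
    (h : Descr G r r2 tc T0 Th e1 e2 F t inX) : Descr G r r2 tc T0 Th e2 e1 F t inX := by
  rcases h with ⟨v, hv, S, f, h1, h2⟩ | ⟨h1, h2, Z, h3, h4, h5⟩ | h
  · exact Or.inl ⟨v, hv, S, f, h1, h2.swap⟩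
  · refine Or.inr (Or.inl ⟨h1, h2, Z, h3, h4, fun z hz => ?_⟩)
    obtain ⟨S, f, h6, h7⟩ := h5 z hz
    exact ⟨S, f, h6, h7.swap⟩
  · exact Or.inr (Or.inr h)

theorem IsLaw.nonempty {V : Type} {S : Finset (Finset (Sym2 V))}
    {f : Finset (Sym2 V) → ℝ} (h : IsLaw S f) : S.Nonempty := by
  by_contra hS
  rw [not_nonempty_iff_eq_empty] at hS
  have := h.total
  rw [hS, sum_empty] at this
  norm_num at this

theorem IsCyc.card_le {V : Type} {G : SimpleGraph V} {D : Finset (Sym2 V)} {m : ℕ} {γ : ℤ → V}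
    (h : IsCyc G D m γ) : D.card ≤ m := by
  obtain ⟨-, -, -, hD⟩ := h
  rw [hD]
  refine card_image_le.trans ?_
  rw [card_range]

theorem GoodCirc.card_le {V : Type} [Fintype V] {G : SimpleGraph V} {L r : ℕ}
    {D : Finset (Sym2 V)} (h : GoodCirc G L r D) : D.card ≤ 2 * L := by
  obtain ⟨m, γ, h1, -, h2, -⟩ := h.cyc
  exact h1.card_le.trans h2

/-- Every class mass bound: `t_x ≤ |Rel_x| ≤ Rm` for medium `x`. -/
theorem core_iso_card (h_heavy : S_heavy) : ForCtx fun V _ G K N κ a Cs s Rm r1 r2 tc r4 ρ LT ε0 ε2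
    ε3 η η' Ω _ Ω₀ Q e C GG μ X _ F =>
      ∀ x, Med ε0 LT μ (F x) →
        (isoC G r2 μ (F x) (η / Fintype.card V) (η' / Fintype.card V)).card ≤ Rm := by
  intro V _ G K N κ a Cs s Rm r1 r2 tc r4 ρ LT ε0 ε2 ε3 η η' Ω _ Ω₀ Q e C GG μ X _ F ctx x hx
  have hn : (0 : ℝ) < (Fintype.card V : ℝ) := by exact_mod_cast ctx.hn
  have hη' : 0 < η' := by
    have h1 := ctx.num.ηη'
    have h2 := ctx.ηpos
    linarith
  have h1 : (isoC G r2 μ (F x) (η / Fintype.card V) (η' / Fintype.card V)).card ≤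
      (rel μ (F x) (η / Fintype.card V) (η' / Fintype.card V)).card := by
    unfold isoC
    exact card_image_le.trans (card_le_card (filter_subset _ _))
  have h2 : rel μ (F x) (η / Fintype.card V) (η' / Fintype.card V) ⊆
      (univ.filter fun g => η' / Fintype.card V ≤ mas μ (F x) (fun D => g ∈ D)) := by
    intro g hg
    simp only [rel, mem_filter, mem_univ, true_and] at hg ⊢
    refine hg.trans ?_
    unfold mas
    refine sum_le_sum_of_subset_of_nonneg ?_ fun D _ _ => ctx.str.mu_nonneg D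
    intro D hD
    simp only [lock, mem_filter] at hD ⊢
    exact ⟨hD.1, hD.2.1⟩
  have h3 := h_heavy V μ (F x) (LL (Fintype.card V)) (η' / Fintype.card V) ctx.str.mu_nonneg
    fun D hD => (ctx.str.good D (ctx.sub x hD)).card_le
  have h4 : ((rel μ (F x) (η / Fintype.card V) (η' / Fintype.card V)).card : ℝ) *
      (η' / Fintype.card V) ≤ 2 * LL (Fintype.card V) * (LT / Fintype.card V) := by
    refine (mul_le_mul_of_nonneg_right (by exact_mod_cast card_le_card h2)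
      (div_nonneg hη'.le hn.le)).trans (h3.trans ?_)
    exact mul_le_mul_of_nonneg_left hx.2.le (by positivity)
  have h5 : ((rel μ (F x) (η / Fintype.card V) (η' / Fintype.card V)).card : ℝ) ≤
      2 * LL (Fintype.card V) * LT / η' := by
    rw [le_div_iff₀ hη']
    have h6 := mul_le_mul_of_nonneg_right h4 hn.le
    have h7 : ((rel μ (F x) (η / Fintype.card V) (η' / Fintype.card V)).card : ℝ) *
      (η' / Fintype.card V) * Fintype.card V =
      ((rel μ (F x) (η / Fintype.card V) (η' / Fintype.card V)).card : ℝ) * η' := by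
      field_simp
    have h8 : 2 * (LL (Fintype.card V) : ℝ) * (LT / Fintype.card V) * Fintype.card V =
      2 * LL (Fintype.card V) * LT := by
      field_simp
    rw [h7, h8] at h6
    exact h6
  have h9 : ((rel μ (F x) (η / Fintype.card V) (η' / Fintype.card V)).card : ℝ) ≤ Rm :=
    h5.trans ctx.num.Rmax
  have h10 : (rel μ (F x) (η / Fintype.card V) (η' / Fintype.card V)).card ≤ Rm := by
    exact_mod_cast h9
  omega

theorem core_gen (h_heavy : S_heavy) (h_cls : S_cls) (h_diam : S_diam) (h_lawA : S_lawA)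
    (h_lawB : S_lawB) (h_ramapp : S_ramapp) (h_ub : S_ub) (h_evb : S_evb) (h_evc : S_evc)
    (h_evd : S_evd) (h_eve : S_eve) (h_evf : S_evf) (h_evg : S_evg) (h_hmean : S_hmean)
    (h_evh : S_evh) (h_omega : S_omega) (h_case : S_case) (h_lock : S_lock) (h_descr : S_descr) :
    ForCtx fun V _ G K N κ a Cs s Rm r1 r2 tc r4 ρ LT ε0 ε2
    ε3 η η' Ω _ Ω₀ Q e C GG μ X _ F =>
      RamseyN N (2 * κ) →
      ∃ ω ∈ Ω₀, ∃ i j k : Fin N, i ≠ j ∧ i ≠ k ∧ j ≠ k ∧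
      ∃ (A A3 B : Finset X) (Z : X → Finset V),
        Disjoint A B ∧ A.card + B.card ≤ s ∧
        Cand G (rr (Fintype.card V)) r2 tc (3 * κ) (Q ω i ∪ Q ω j ∪ Q ω k) A A3 Z ∧
        (∀ x ∈ A3, (Z x).card ≤ Rm) ∧
        (∀ x ∈ A, ∀ z ∈ Z x, ∃ S f, (∀ D ∈ S, D ∈ F x) ∧
          LawA G (rr (Fintype.card V)) ((lam (Fintype.card V) : ℝ) ^ a / ε3) (e ω i) (e ω k) z S f) ∧
        (∀ x ∈ B, ∃ S f, (∀ D ∈ S, D ∈ F x) ∧ LawB (ε2 / ε0) S f) ∧
        (∀ x, C ω i k ∈ F x → LT / Fintype.card V ≤ ∑ D ∈ F x, μ D ∨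
          x ∈ A ∨ x ∈ B ∨ C ω i j ∈ F x ∨ C ω j k ∈ F x) := by
  intro V _ G K N κ a Cs s Rm r1 r2 tc r4 ρ LT ε0 ε2 ε3 η η' Ω _ Ω₀ Q e C GG μ X _ F ctx hram
  have hn : (0 : ℝ) < (Fintype.card V : ℝ) := by exact_mod_cast ctx.hn
  have hstr := ctx.str
  have num := ctx.num
  obtain ⟨ω, hω, hb, hc, hd, he, hf, hg, hh⟩ := h_omega h_ub h_heavy h_cls h_diam h_evb h_evc h_evd
    h_eve h_evf h_evg h_hmean h_evh V G K N κ a Cs s Rm r1 r2 tc r4 ρ LT ε0 ε2 ε3 η η' Ω Ω₀ Q e C GG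
    μ X F ctx
  -- abbreviations
  obtain ⟨t, ht⟩ : ∃ t : X → ℕ, ∀ x, t x =
      (isoC G r2 μ (F x) (η / Fintype.card V) (η' / Fintype.card V)).card := ⟨_, fun _ => rfl⟩
  obtain ⟨XI, hXI⟩ : ∃ XI : Fin N → Finset X, ∀ i, XI i = Xi G N Q e μ F r2 ε0 LT η η' ω i :=
    ⟨_, fun _ => rfl⟩
  obtain ⟨I, hI⟩ : ∃ I : Finset (Fin N), I = univ.filter fun i : Fin N =>
      ∑ x ∈ XI i, (1 : ℝ) / (t x : ℝ) ≤ κ := ⟨_, rfl⟩
  have hIcard : N ≤ 2 * I.card := by
    have := hh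
    unfold Evh at this
    rw [hI]
    simp only [hXI, ht]
    exact this
  have hsumI : ∀ i ∈ I, ∑ x ∈ XI i, (1 : ℝ) / (t x : ℝ) ≤ κ := by
    intro i hi
    rw [hI, mem_filter] at hi
    exact hi.2
  have htpos : ∀ i, ∀ x ∈ XI i, 1 ≤ t x := by
    intro i x hx
    rw [hXI] at hx
    simp only [Xi, mem_filter, mem_univ, true_and] at hx
    obtain ⟨-, κ', hκ', -⟩ := hx
    rw [ht]
    exact card_pos.2 ⟨κ', hκ'⟩
  have hYcard : ∀ i ∈ I, ((XI i).filter fun x => t x ≤ 2).card ≤ 2 * κ := by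
    intro i hi
    have h1 := hsumI i hi
    have h2 : (((XI i).filter fun x => t x ≤ 2).card : ℝ) * (1 / 2) ≤
        ∑ x ∈ XI i, (1 : ℝ) / (t x : ℝ) := by
      calc (((XI i).filter fun x => t x ≤ 2).card : ℝ) * (1 / 2) =
          ∑ x ∈ (XI i).filter fun x => t x ≤ 2, (1 / 2 : ℝ) := by rw [sum_const, nsmul_eq_mul]
        _ ≤ ∑ x ∈ (XI i).filter fun x => t x ≤ 2, (1 : ℝ) / (t x : ℝ) := by
          refine sum_le_sum fun x hx => ?_
          rw [mem_filter] at hx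
          have h3 := htpos i x hx.1
          have h4 : (0 : ℝ) < (t x : ℝ) := by exact_mod_cast h3
          have h5 : (t x : ℝ) ≤ 2 := by exact_mod_cast hx.2
          exact one_div_le_one_div_of_le h4 h5
        _ ≤ _ := sum_le_sum_of_subset_of_nonneg (filter_subset _ _) fun _ _ _ => by positivity
    have h3 : (((XI i).filter fun x => t x ≤ 2).card : ℝ) ≤ ((2 * κ : ℕ) : ℝ) := by
      push_cast
      linarith
    exact_mod_cast h3
  obtain ⟨i, hi, j, hj, k, hk, hij, hjk, hr1, hr2⟩ := h_ramapp N (2 * κ) hram X I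
    (fun i => (XI i).filter fun x => t x ≤ 2)
    (fun i k => univ.filter fun x => C ω i k ∈ F x) hIcard hYcard
  have hik : i < k := hij.trans hjk
  have hne_ij : i ≠ j := hij.ne
  have hne_ik : i ≠ k := hik.ne
  have hne_jk : j ≠ k := hjk.ne
  refine ⟨ω, hω, i, j, k, hne_ij, hne_ik, hne_jk, ?_⟩
  have hr1' : ∀ x ∈ XI i, t x ≤ 2 → C ω i k ∈ F x → C ω i j ∈ F x := by
    intro x hx hx2 hC
    have := hr1 x (mem_filter.2 ⟨hx, hx2⟩) (mem_filter.2 ⟨mem_univ _, hC⟩)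
    exact (mem_filter.1 this).2
  have hr2' : ∀ x ∈ XI k, t x ≤ 2 → C ω i k ∈ F x → C ω j k ∈ F x := by
    intro x hx hx2 hC
    have := hr2 x (mem_filter.2 ⟨hx, hx2⟩) (mem_filter.2 ⟨mem_univ _, hC⟩)
    exact (mem_filter.1 this).2
  obtain ⟨Th, hTh⟩ : ∃ Th, Th = Q ω i ∪ Q ω j ∪ Q ω k := ⟨_, rfl⟩
  rw [← hTh]
  have hCTh : C ω i k ⊆ Th := by
    intro g hg
    have := hstr.sub_theta ω hω i k hne_ik hg
    rw [hTh]
    simp only [mem_union] at this ⊢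
    tauto
  have hΛ : (0 : ℝ) ≤ (lam (Fintype.card V) : ℝ) ^ a := by positivity
  have hMu : Mu G (rr (Fintype.card V)) ((lam (Fintype.card V) : ℝ) ^ a) GG μ :=
    ⟨hstr.mu_nonneg, hstr.mu_mass, hstr.lawM⟩
  -- the classification
  obtain ⟨T0, hT0⟩ : ∃ T0 : ℝ, T0 = (lam (Fintype.card V) : ℝ) ^ a / ε3 := ⟨_, rfl⟩
  obtain ⟨r, hr⟩ : ∃ r : ℕ, r = rr (Fintype.card V) := ⟨_, rfl⟩
  obtain ⟨PB, hPB⟩ : ∃ PB : X → Prop, ∀ x, PB x ↔
      ε0 / Fintype.card V ≤ ∑ D ∈ dif μ (F x) (ε2 / Fintype.card V), μ D := ⟨_, fun _ => Iff.rfl⟩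
  obtain ⟨PN, hPN⟩ : ∃ PN : X → Prop, ∀ x, PN x ↔
      ∃ v, (∃ w ∈ vs Th, G.dist v w ≤ r2) ∧ ∃ S f, (∀ D ∈ S, D ∈ F x) ∧
        LawA G r T0 (e ω i) (e ω k) v S f := ⟨_, fun _ => Iff.rfl⟩
  obtain ⟨PA, hPA⟩ : ∃ PA : X → Prop, ∀ x, PA x ↔
      ((x ∈ XI i ∨ x ∈ XI k) ∧ 3 ≤ t x ∧ ∃ Z : Finset V, Z.card + 1 = t x ∧
        (∀ z ∈ Z, ∀ z' ∈ Z, z ≠ z' → tc < G.dist z z') ∧
        ∀ z ∈ Z, ∃ S f, (∀ D ∈ S, D ∈ F x) ∧ LawA G r T0 (e ω i) (e ω k) z S f) :=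
    ⟨_, fun _ => Iff.rfl⟩
  have hclass : ∀ x, Med ε0 LT μ (F x) → C ω i k ∈ F x →
      PB x ∨ PN x ∨ PA x ∨ C ω i j ∈ F x ∨ C ω j k ∈ F x := by
    intro x hx hC
    rcases h_case h_cls V G K N κ a Cs s Rm r1 r2 tc r4 ρ LT ε0 ε2 ε3 η η' Ω Ω₀ Q e C GG μ X F ctx ω
      hω hd he hf hg i k hne_ik x hx hC with h | ⟨v, hv, h⟩ | ⟨h1, h2, h3⟩ | ⟨h1, h2, h3⟩
    · exact Or.inl ((hPB x).2 h)
    · -- (A1)
      refine Or.inr (Or.inl ((hPN x).2 ⟨v, ⟨v, ?_, by simp⟩, ?_⟩))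
      · simp only [vs, mem_filter, mem_univ, true_and] at hv ⊢
        obtain ⟨g, hg, hvg⟩ := hv
        exact ⟨g, hCTh hg, hvg⟩
      · have h' : ε3 / Fintype.card V ≤
            ∑ D ∈ (F x).filter (fun D => v ∈ vs D ∧ e ω i ∉ D ∧ e ω k ∉ D), μ D := by
          unfold mas at h
          convert h
        obtain ⟨f, hf⟩ := h_lawA V G (rr (Fintype.card V)) ((lam (Fintype.card V) : ℝ) ^ a) ε3 GG μ hMu
          hΛ num.ε3pos ctx.hn (e ω i) (e ω k) v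
          ((F x).filter fun D => v ∈ vs D ∧ e ω i ∉ D ∧ e ω k ∉ D)
          ((filter_subset _ _).trans (ctx.sub x)) (fun D hD => (mem_filter.1 hD).2) h'
        refine ⟨(F x).filter fun D => v ∈ vs D ∧ e ω i ∉ D ∧ e ω k ∉ D, f,
          fun D hD => (mem_filter.1 hD).1, ?_⟩
        rw [hr, hT0]
        exact hf
    · have hde := h_descr h_cls h_diam h_lawA h_lock V G K N κ a Cs s Rm r1 r2 tc r4 ρ LT ε0 ε2 ε3 η
        η' Ω Ω₀ Q e C GG μ X F ctx ω hω i k Th (e ω k) hne_ik hCTh x hx h1 h2 h3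
      rw [← ht, ← hXI, ← hr, ← hT0] at hde
      rcases hde with h | ⟨h4, h5, h6⟩ | ⟨h4, h5⟩
      · exact Or.inr (Or.inl ((hPN x).2 h))
      · exact Or.inr (Or.inr (Or.inl ((hPA x).2 ⟨Or.inl h4, h5, h6⟩)))
      · exact Or.inr (Or.inr (Or.inr (Or.inl (hr1' x h4 h5 hC))))
    · have hsy := hstr.symm ω hω i k
      have hde := (h_descr h_cls h_diam h_lawA h_lock V G K N κ a Cs s Rm r1 r2 tc r4 ρ LT ε0 ε2 ε3 η
        η' Ω Ω₀ Q e C GG μ X F ctx ω hω k i Th (e ω i) hne_ik.symm (by rw [← hsy]; exact hCTh) x hx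
        h1 (by rw [← hsy]; exact h2) h3).swap
      rw [← ht, ← hXI, ← hr, ← hT0] at hde
      rcases hde with h | ⟨h4, h5, h6⟩ | ⟨h4, h5⟩
      · exact Or.inr (Or.inl ((hPN x).2 h))
      · exact Or.inr (Or.inr (Or.inl ((hPA x).2 ⟨Or.inr h4, h5, h6⟩)))
      · exact Or.inr (Or.inr (Or.inr (Or.inr (hr2' x h4 h5 hC))))
  -- candidates
  have hZex : ∀ x, ∃ Z : Finset V,
      (PN x → ∃ v, Z = {v} ∧ (∃ w ∈ vs Th, G.dist v w ≤ r2) ∧ ∃ S f, (∀ D ∈ S, D ∈ F x) ∧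
        LawA G r T0 (e ω i) (e ω k) v S f) ∧
      (¬ PN x → PA x → (x ∈ XI i ∨ x ∈ XI k) ∧ 3 ≤ t x ∧ Z.card + 1 = t x ∧
        (∀ z ∈ Z, ∀ z' ∈ Z, z ≠ z' → tc < G.dist z z') ∧
        ∀ z ∈ Z, ∃ S f, (∀ D ∈ S, D ∈ F x) ∧ LawA G r T0 (e ω i) (e ω k) z S f) := by
    intro x
    by_cases h : PN x
    · obtain ⟨v, hv⟩ := (hPN x).1 h
      exact ⟨{v}, fun _ => ⟨v, rfl, hv⟩, fun h' => absurd h h'⟩
    · by_cases h' : PA x
      · obtain ⟨h1, h2, Z, h3⟩ := (hPA x).1 h'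
        exact ⟨Z, fun h'' => absurd h'' h, fun _ _ => ⟨h1, h2, h3⟩⟩
      · exact ⟨∅, fun h'' => absurd h'' h, fun _ h'' => absurd h'' h'⟩
  choose Z hZN hZA using hZex
  obtain ⟨Md, hMd⟩ : ∃ Md : Finset X, ∀ x, x ∈ Md ↔ (Med ε0 LT μ (F x) ∧ C ω i k ∈ F x) :=
    ⟨univ.filter fun x => Med ε0 LT μ (F x) ∧ C ω i k ∈ F x, fun x => by simp⟩
  have hMdcard : Md.card ≤ s := by
    have h1 := hc i k hne_ik
    have h2 : Md = univ.filter fun x : X => Med ε0 LT μ (F x) ∧ C ω i k ∈ F x := by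
      ext x
      simp [hMd]
    rw [h2]
    exact h1
  have hlaw : ∀ x, (PN x ∨ PA x) → ∀ z ∈ Z x, ∃ S f, (∀ D ∈ S, D ∈ F x) ∧
      LawA G r T0 (e ω i) (e ω k) z S f := by
    intro x hx z hz
    by_cases h : PN x
    · obtain ⟨v, hv, -, h1⟩ := hZN x h
      rw [hv, mem_singleton] at hz
      rw [hz]
      exact h1
    · exact (hZA x h (hx.resolve_left h)).2.2.2.2 z hz
  refine ⟨Md.filter fun x => ¬ PB x ∧ (PN x ∨ PA x), Md.filter fun x => ¬ PB x ∧ ¬ PN x ∧ PA x,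
    Md.filter fun x => PB x, Z, ?_, ?_, ?_, ?_, ?_, ?_, ?_⟩
  · rw [disjoint_left]
    intro x hx hx'
    exact (mem_filter.1 hx).2.1 (mem_filter.1 hx').2
  · rw [← card_union_of_disjoint (by
      rw [disjoint_left]
      intro x hx hx'
      exact (mem_filter.1 hx).2.1 (mem_filter.1 hx').2)]
    refine (card_le_card ?_).trans hMdcard
    exact union_subset (filter_subset _ _) (filter_subset _ _)
  · refine ⟨?_, ?_, ?_, ?_, ?_, ?_, ?_⟩
    · intro x hx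
      rw [mem_filter] at hx ⊢
      exact ⟨hx.1, hx.2.1, Or.inr hx.2.2.2⟩
    · intro x hx
      rw [mem_filter] at hx
      by_cases h : PN x
      · obtain ⟨v, hv, -⟩ := hZN x h
        rw [hv]
        exact singleton_nonempty v
      · obtain ⟨-, h1, h2, -⟩ := hZA x h (hx.2.2.resolve_left h)
        exact card_pos.1 (by omega)
    · intro x hx hx3 z hz
      rw [mem_filter] at hx hx3
      have h : PN x := by
        by_contra h
        exact hx3 ⟨hx.1, hx.2.1, h, hx.2.2.resolve_left h⟩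
      obtain ⟨v, hv, h1, -⟩ := hZN x h
      rw [hv, mem_singleton] at hz
      rw [hz]
      exact h1
    · intro x hx
      rw [mem_filter] at hx
      obtain ⟨-, h1, h2, -⟩ := hZA x hx.2.2.1 hx.2.2.2
      omega
    · intro x hx
      rw [mem_filter] at hx
      exact (hZA x hx.2.2.1 hx.2.2.2).2.2.2.1
    · -- the sum
      have h1 : ∀ x ∈ Md.filter (fun x => ¬ PB x ∧ ¬ PN x ∧ PA x),
          (1 : ℝ) / ((Z x).card : ℝ) ≤ 3 / 2 * ((1 : ℝ) / (t x : ℝ)) := by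
        intro x hx
        rw [mem_filter] at hx
        obtain ⟨-, h1, h2, -⟩ := hZA x hx.2.2.1 hx.2.2.2
        have h3 : (3 : ℝ) ≤ (t x : ℝ) := by exact_mod_cast h1
        have h4 : ((Z x).card : ℝ) = (t x : ℝ) - 1 := by
          rw [← h2]
          push_cast
          ring
        rw [h4, mul_one_div, div_le_div_iff₀ (by linarith) (by linarith)]
        linarith
      refine (sum_le_sum h1).trans ?_
      rw [← mul_sum]
      have h2 : ∑ x ∈ Md.filter (fun x => ¬ PB x ∧ ¬ PN x ∧ PA x), (1 : ℝ) / (t x : ℝ) ≤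
          ∑ x ∈ XI i ∪ XI k, (1 : ℝ) / (t x : ℝ) := by
        refine sum_le_sum_of_subset_of_nonneg ?_ fun _ _ _ => by positivity
        intro x hx
        rw [mem_filter] at hx
        rw [mem_union]
        exact (hZA x hx.2.2.1 hx.2.2.2).1
      have h3 : ∑ x ∈ XI i ∪ XI k, (1 : ℝ) / (t x : ℝ) ≤
          ∑ x ∈ XI i, (1 : ℝ) / (t x : ℝ) + ∑ x ∈ XI k, (1 : ℝ) / (t x : ℝ) := by
        rw [← sum_union_inter]
        exact le_add_of_nonneg_right (sum_nonneg fun _ _ => by positivity)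
      have h4 := hsumI i hi
      have h5 := hsumI k hk
      push_cast
      linarith
    · intro x hx z hz Y hY hball
      rw [mem_filter] at hx
      obtain ⟨S, f, h1, h2⟩ := hlaw x hx.2.2 z hz
      obtain ⟨D, hD⟩ := h2.law.nonempty
      exact (hstr.good D (ctx.sub x (h1 D hD))).tb z (h2.centre D hD) Y hY hball
  · intro x hx
    rw [mem_filter] at hx
    obtain ⟨-, h1, h2, -⟩ := hZA x hx.2.2.1 hx.2.2.2
    have h3 := core_iso_card h_heavy V G K N κ a Cs s Rm r1 r2 tc r4 ρ LT ε0 ε2 ε3 η η' Ω Ω₀ Q e C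
      GG μ X F ctx x ((hMd x).1 hx.1).1
    rw [← ht] at h3
    omega
  · intro x hx z hz
    rw [mem_filter] at hx
    rw [← hr, ← hT0]
    exact hlaw x hx.2.2 z hz
  · intro x hx
    rw [mem_filter] at hx
    obtain ⟨f, hf⟩ := h_lawB V ε0 ε2 (F x) μ hstr.mu_nonneg num.ε0pos num.ε2pos ctx.hn
      ((hPB x).1 hx.2)
    exact ⟨_, f, fun D hD => (mem_filter.1 hD).1, hf⟩
  · intro x hx
    by_cases h1 : LT / Fintype.card V ≤ ∑ D ∈ F x, μ D
    · exact Or.inl h1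
    · right
      have hmed : Med ε0 LT μ (F x) := by
        refine ⟨?_, not_le.1 h1⟩
        by_contra h2
        exact hb i k hne_ik x (not_le.1 h2) hx
      have hxMd : x ∈ Md := (hMd x).2 ⟨hmed, hx⟩
      rcases hclass x hmed hx with h | h | h | h | h
      · exact Or.inr (Or.inl (mem_filter.2 ⟨hxMd, h⟩))
      · by_cases hB : PB x
        · exact Or.inr (Or.inl (mem_filter.2 ⟨hxMd, hB⟩))
        · exact Or.inl (mem_filter.2 ⟨hxMd, hB, Or.inl h⟩)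
      · by_cases hB : PB x
        · exact Or.inr (Or.inl (mem_filter.2 ⟨hxMd, hB⟩))
        · exact Or.inl (mem_filter.2 ⟨hxMd, hB, Or.inr h⟩)
      · exact Or.inr (Or.inr (Or.inl h))
      · exact Or.inr (Or.inr (Or.inr h))

/-- The assembly of `CoreStatement`. -/
theorem core_assembly (h_heavy : S_heavy) (h_cls : S_cls) (h_diam : S_diam) (h_lawA : S_lawA)
    (h_lawB : S_lawB) (h_ramapp : S_ramapp) (h_ub : S_ub) (h_evb : S_evb) (h_evc : S_evc)
    (h_evd : S_evd) (h_eve : S_eve) (h_evf : S_evf) (h_evg : S_evg) (h_hmean : S_hmean)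
    (h_evh : S_evh) (h_omega : S_omega) (h_tri : S_tri) (h_case : S_case) (h_lock : S_lock)
    (h_descr : S_descr) : CoreStatement := by
  intro K N κ a Cs s Rm r1 r2 tc r4 ρ LT ε0 ε2 ε3 η η' hN hram V _ G hconn hcub num Ω _ Ω₀ Q e C GG
    μ hstr M σ hM
  obtain ⟨n, hn⟩ : ∃ n, n = Fintype.card V := ⟨_, rfl⟩
  have hnpos : 0 < Fintype.card V := by
    have h4 := num.lam4
    by_contra h
    have h0 : Fintype.card V = 0 := by omega
    rw [h0] at h4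
    simp [lam] at h4
  have hη : 0 < η := by
    have h1 := num.ε3pos
    have h2 := num.ε3η
    linarith
  have ctx : Ctx G K N κ a Cs s Rm r1 r2 tc r4 ρ LT ε0 ε2 ε3 η η' Ω₀ Q e C GG μ (Fin M)
      (fun x => GG.filter fun D => x ∈ σ D) :=
    { num := num
      str := hstr
      hn := hnpos
      hN := hN
      ηpos := hη
      cardX := by rw [Fintype.card_fin]; exact hM
      sub := fun x => filter_subset _ _ }
  obtain ⟨ω, hω, i, j, k, hij, hik, hjk, A, A3, B, Z, h1, h2, h3, h4, h5, h6, h7⟩ :=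
    core_gen h_heavy h_cls h_diam h_lawA h_lawB h_ramapp h_ub h_evb h_evc h_evd h_eve h_evf h_evg
      h_hmean h_evh h_omega h_case h_lock h_descr V G K N κ a Cs s Rm r1 r2 tc r4 ρ LT ε0 ε2 ε3 η η' Ω
      Ω₀ Q e C GG μ (Fin M) (fun x => GG.filter fun D => x ∈ σ D) ctx hram
  refine ⟨Q ω i ∪ Q ω j ∪ Q ω k, C ω i k, C ω i j, C ω j k, e ω i, e ω k, A, A3, B, Z,
    h_tri V G N _ _ Cs _ Ω Ω₀ Q e C GG μ hstr ω hω i j k hij hik hjk, h1, h2, h3, h4, ?_, ?_, ?_⟩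
  · intro x hx z hz
    obtain ⟨S, f, h8, h9⟩ := h5 x hx z hz
    exact ⟨S, f, fun D hD => mem_filter.1 (h8 D hD), h9⟩
  · intro x hx
    obtain ⟨S, f, h8, h9⟩ := h6 x hx
    exact ⟨S, f, fun D hD => mem_filter.1 (h8 D hD), h9⟩
  · intro x hx
    have hC : C ω i k ∈ GG.filter fun D => x ∈ σ D :=
      mem_filter.2 ⟨hstr.mem ω hω i k hik, hx⟩
    rcases h7 x hC with h | h | h | h | h
    · exact Or.inl h
    · exact Or.inr (Or.inl h)
    · exact Or.inr (Or.inr (Or.inl h))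
    · exact Or.inr (Or.inr (Or.inr (Or.inl (mem_filter.1 h).2)))
    · exact Or.inr (Or.inr (Or.inr (Or.inr (mem_filter.1 h).2)))

end Pool.Agent.Lib.MP_fce888_co
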