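import Pool.Agent.Lib.MP_fce888_co.C.Core.Stm

set_option autoImplicit false

/-!
# MP_fce888_co, [XC evc]: Markov's inequality for the event (c)
-/

namespace Pool.Agent.Lib.MP_fce888_co

open Finset
open scoped Classical

/-- Markov for one pair -/
private theorem evc_markov {Ω X : Type} (Ω₀ : Finset Ω) (J : Finset X) (R : Ω → X → Prop)
    [∀ ω x, Decidable (R ω x)] (s : ℕ) (b : ℝ) (hb : ∀ x ∈ J, ((Ω₀.filter fun ω => R ω x).card : ℝ) ≤ b) :
    (s : ℝ) * ((Ω₀.filter fun ω => ¬ (J.filter fun x => R ω x).card ≤ s).card : ℝ) ≤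
      J.card * b := by
  have h1 : ∑ ω ∈ Ω₀, ((J.filter fun x => R ω x).card : ℝ) =
      ∑ x ∈ J, ((Ω₀.filter fun ω => R ω x).card : ℝ) := by
    have e1 : ∀ ω, ((J.filter fun x => R ω x).card : ℝ) = ∑ x ∈ J, if R ω x then (1 : ℝ) else 0 := by
      intro ω
      rw [Finset.sum_ite, Finset.sum_const_zero, add_zero, Finset.sum_const, nsmul_eq_mul, mul_one]
    have e2 : ∀ x, ((Ω₀.filter fun ω => R ω x).card : ℝ) = ∑ ω ∈ Ω₀, if R ω x then (1 : ℝ) else 0 := by
      intro x
      rw [Finset.sum_ite, Finset.sum_const_zero, add_zero, Finset.sum_const, nsmul_eq_mul, mul_one]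
    rw [Finset.sum_congr rfl (fun ω _ => e1 ω), Finset.sum_congr rfl (fun x _ => e2 x),
      Finset.sum_comm]
  have h2 : (s : ℝ) * ((Ω₀.filter fun ω => ¬ (J.filter fun x => R ω x).card ≤ s).card : ℝ) ≤
      ∑ ω ∈ Ω₀, ((J.filter fun x => R ω x).card : ℝ) := by
    calc (s : ℝ) * ((Ω₀.filter fun ω => ¬ (J.filter fun x => R ω x).card ≤ s).card : ℝ)
        = ∑ ω ∈ Ω₀.filter fun ω => ¬ (J.filter fun x => R ω x).card ≤ s, (s : ℝ) := by
          rw [Finset.sum_const, nsmul_eq_mul, mul_comm]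
      _ ≤ ∑ ω ∈ Ω₀.filter fun ω => ¬ (J.filter fun x => R ω x).card ≤ s,
            ((J.filter fun x => R ω x).card : ℝ) := by
          refine Finset.sum_le_sum fun ω hω => ?_
          have := (Finset.mem_filter.1 hω).2
          exact_mod_cast (by omega : s ≤ (J.filter fun x => R ω x).card)
      _ ≤ ∑ ω ∈ Ω₀, ((J.filter fun x => R ω x).card : ℝ) :=
          Finset.sum_le_sum_of_subset_of_nonneg (Finset.filter_subset _ _)
            (fun _ _ _ => Nat.cast_nonneg _)
  refine h2.trans ?_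
  rw [h1, ← nsmul_eq_mul, ← Finset.sum_const]
  exact Finset.sum_le_sum hb

theorem p_evc : S_evc := by
  intro V _ G K N κ a Cs s Rm r1 r2 tc r4 ρ LT ε0 ε2 ε3 η η' Ω _ Ω₀ Q e C GG μ X _ F h
  have hn : (0 : ℝ) < Fintype.card V := by exact_mod_cast h.hn
  have hN : (1 : ℝ) ≤ N := by exact_mod_cast h.hN
  have hLT := h.num.LTpos
  have hX : (Fintype.card X : ℝ) ≤ K * Fintype.card V := by exact_mod_cast h.cardX
  have hΩ : (0 : ℝ) ≤ Fintype.card Ω := Nat.cast_nonneg _
  set J : Finset X := univ.filter fun x => Med ε0 LT μ (F x) with hJ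
  have hJX : (J.card : ℝ) ≤ K * Fintype.card V :=
    le_trans (by exact_mod_cast Finset.card_le_univ J) hX
  -- one pair
  have hpair : ∀ i k : Fin N, i ≠ k →
      (s : ℝ) * ((Ω₀.filter fun ω => ¬ (J.filter fun x => C ω i k ∈ F x).card ≤ s).card : ℝ) ≤
        K * LT * Fintype.card Ω := by
    intro i k hik
    have h1 := evc_markov Ω₀ J (fun ω x => C ω i k ∈ F x) s (LT / Fintype.card V * Fintype.card Ω)
      (fun x hx => by
        have hx' := (Finset.mem_filter.1 hx).2
        exact (h.str.law1 i k hik (F x)).trans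
          (mul_le_mul_of_nonneg_right hx'.2.le hΩ))
    refine h1.trans ?_
    have h2 : (J.card : ℝ) * (LT / Fintype.card V * Fintype.card Ω) ≤
        K * Fintype.card V * (LT / Fintype.card V * Fintype.card Ω) :=
      mul_le_mul_of_nonneg_right hJX (by positivity)
    refine h2.trans (le_of_eq ?_)
    field_simp
  have hfil : ∀ ω i k, (univ.filter fun x : X => Med ε0 LT μ (F x) ∧ C ω i k ∈ F x) =
      J.filter fun x => C ω i k ∈ F x := by
    intro ω i k
    rw [hJ, Finset.filter_filter]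
  have hev : (Ω₀.filter fun ω => ¬ Evc N C μ F ε0 LT s ω).card ≤
      ∑ p ∈ (univ : Finset (Fin N × Fin N)).filter (fun p => p.1 ≠ p.2),
        (Ω₀.filter fun ω => ¬ (J.filter fun x => C ω p.1 p.2 ∈ F x).card ≤ s).card := by
    refine (Finset.card_le_card ?_).trans Finset.card_biUnion_le
    intro ω hω
    obtain ⟨h1, h2⟩ := Finset.mem_filter.1 hω
    unfold Evc at h2
    push Not at h2
    obtain ⟨i, k, hik, hP⟩ := h2
    rw [hfil] at hP
    exact Finset.mem_biUnion.2 ⟨(i, k), Finset.mem_filter.2 ⟨Finset.mem_univ _, hik⟩,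
      Finset.mem_filter.2 ⟨h1, by simpa using hP⟩⟩
  have hev' : ((Ω₀.filter fun ω => ¬ Evc N C μ F ε0 LT s ω).card : ℝ) ≤
      ∑ p ∈ (univ : Finset (Fin N × Fin N)).filter (fun p => p.1 ≠ p.2),
        ((Ω₀.filter fun ω => ¬ (J.filter fun x => C ω p.1 p.2 ∈ F x).card ≤ s).card : ℝ) := by
    exact_mod_cast hev
  have hcp : (((univ : Finset (Fin N × Fin N)).filter (fun p => p.1 ≠ p.2)).card : ℝ) ≤
      (N : ℝ) ^ 2 := by
    have : ((univ : Finset (Fin N × Fin N)).filter (fun p => p.1 ≠ p.2)).card ≤ N * N := by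
      refine (Finset.card_le_univ _).trans ?_
      rw [Fintype.card_prod, Fintype.card_fin]
    rw [sq]
    exact_mod_cast this
  have htot : (s : ℝ) * ((Ω₀.filter fun ω => ¬ Evc N C μ F ε0 LT s ω).card : ℝ) ≤
      (s : ℝ) / 20 * Fintype.card Ω := by
    calc (s : ℝ) * ((Ω₀.filter fun ω => ¬ Evc N C μ F ε0 LT s ω).card : ℝ)
        ≤ s * ∑ p ∈ (univ : Finset (Fin N × Fin N)).filter (fun p => p.1 ≠ p.2),
          ((Ω₀.filter fun ω => ¬ (J.filter fun x => C ω p.1 p.2 ∈ F x).card ≤ s).card : ℝ) :=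
          mul_le_mul_of_nonneg_left hev' (Nat.cast_nonneg _)
      _ = ∑ p ∈ (univ : Finset (Fin N × Fin N)).filter (fun p => p.1 ≠ p.2), (s : ℝ) *
          ((Ω₀.filter fun ω => ¬ (J.filter fun x => C ω p.1 p.2 ∈ F x).card ≤ s).card : ℝ) :=
          Finset.mul_sum _ _ _
      _ ≤ ∑ p ∈ (univ : Finset (Fin N × Fin N)).filter (fun p => p.1 ≠ p.2),
          K * LT * Fintype.card Ω :=
          Finset.sum_le_sum fun p hp => hpair p.1 p.2 (Finset.mem_filter.1 hp).2
      _ = (((univ : Finset (Fin N × Fin N)).filter (fun p => p.1 ≠ p.2)).card : ℝ) *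
          (K * LT * Fintype.card Ω) := by
          rw [Finset.sum_const, nsmul_eq_mul]
      _ ≤ (N : ℝ) ^ 2 * (K * LT * Fintype.card Ω) :=
          mul_le_mul_of_nonneg_right hcp (by positivity)
      _ = ((N : ℝ) ^ 2 * K * LT) * Fintype.card Ω := by ring
      _ ≤ (s : ℝ) / 20 * Fintype.card Ω := mul_le_mul_of_nonneg_right h.num.evc hΩ
  rcases Nat.eq_zero_or_pos s with hs | hs
  · -- `s = 0`: there are no rectangles
    have hK : K = 0 := by
      by_contra hK
      have hK' : (1 : ℝ) ≤ K := by exact_mod_cast (Nat.one_le_iff_ne_zero.2 hK)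
      have h1 := h.num.evc
      rw [hs, Nat.cast_zero, zero_div] at h1
      have h2 : 0 < (N : ℝ) ^ 2 * K * LT := by positivity
      linarith
    have hX0 : Fintype.card X = 0 := by
      have := h.cardX
      rw [hK, zero_mul] at this
      omega
    have hall : (Ω₀.filter fun ω => ¬ Evc N C μ F ε0 LT s ω) = ∅ := by
      refine Finset.filter_eq_empty_iff.2 (fun ω _ h2 => h2 ?_)
      intro i k _
      refine (Finset.card_le_univ _).trans ?_
      rw [hX0]
      exact Nat.zero_le _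
    rw [hall, Finset.card_empty, Nat.cast_zero]
    positivity
  · have hs' : (0 : ℝ) < s := by exact_mod_cast hs
    have h1 : (s : ℝ) * ((Ω₀.filter fun ω => ¬ Evc N C μ F ε0 LT s ω).card : ℝ) ≤
        s * (1 / 20 * Fintype.card Ω) := by
      refine htot.trans (le_of_eq ?_)
      ring
    exact le_of_mul_le_mul_left h1 hs'

end Pool.Agent.Lib.MP_fce888_co
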