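import Pool.Agent.Lib.MP_fce888_co.C.Core.Stm

set_option autoImplicit false
set_option linter.unusedVariables false

/-!
# MP_fce888_co, [XC lock]: the law at a class different from `cls e1` (helper19)
-/

namespace Pool.Agent.Lib.MP_fce888_co

open Finset
open scoped Classical

theorem p_lock : S_lock := by
  intro hcls hlaw V _ G K N κ a Cs s Rm r1 r2 tc r4 ρ LT ε0 ε2 ε3 η η' Ω _ Ω₀ Q e C GG μ X _ F hctx
    x e1 e2 g' v he1 hg' hgn hv he2
  have hn : (0 : ℝ) < Fintype.card V := by exact_mod_cast hctx.hn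
  have hη := hctx.ηpos
  have hηη' := hctx.num.ηη'
  have hε3 := hctx.num.ε3η
  have ht : (0 : ℝ) < η / Fintype.card V := div_pos hη hn
  have htt : 2 * (η / Fintype.card V) < η' / Fintype.card V := by
    rw [← mul_div_assoc]
    exact div_lt_div_of_pos_right hηη' hn
  have hμ0 : ∀ D, 0 ≤ μ D := hctx.str.mu_nonneg
  obtain ⟨c1, c2, -, -⟩ := hcls V μ (F x) (η / Fintype.card V) (η' / Fintype.card V) hμ0 ht htt
  have hMu : Mu G (rr (Fintype.card V)) ((lam (Fintype.card V) : ℝ) ^ a) GG μ :=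
    ⟨hμ0, hctx.str.mu_mass, hctx.str.lawM⟩
  have hΛ : (0 : ℝ) ≤ (lam (Fintype.card V) : ℝ) ^ a := by positivity
  set S : Finset (Finset (Sym2 V)) :=
    (lock μ (F x) (η / Fintype.card V) g').filter fun D => e2 ∉ D with hS
  have hSF : ∀ D ∈ S, D ∈ F x := by
    intro D hD
    exact (mem_filter.1 (mem_filter.1 hD).1).1
  have hSG : S ⊆ GG := fun D hD => hctx.sub x (hSF D hD)
  have hS3 : ∀ D ∈ S, v ∈ vs D ∧ e1 ∉ D ∧ e2 ∉ D := by
    intro D hD
    have hDl := (mem_filter.1 hD).1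
    have hD2 := (mem_filter.1 hD).2
    have hDg : g' ∈ D := (mem_filter.1 hDl).2.1
    refine ⟨?_, ?_, hD2⟩
    · exact mem_filter.2 ⟨mem_univ _, g', hDg, hv⟩
    · intro h1
      have hm : e1 ∈ cls μ (F x) (η / Fintype.card V) (η' / Fintype.card V) g' :=
        mem_filter.2 ⟨he1, D, hDl, h1⟩
      have heq := c2 g' hg' e1 hm
      exact hgn (heq ▸ c1 g' hg')
  have hmass : ε3 / Fintype.card V ≤ ∑ D ∈ S, μ D := by
    have h1 : η' / Fintype.card V ≤ ∑ D ∈ lock μ (F x) (η / Fintype.card V) g', μ D :=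
      (mem_filter.1 hg').2
    have h2 : ∑ D ∈ lock μ (F x) (η / Fintype.card V) g', μ D =
        ∑ D ∈ (lock μ (F x) (η / Fintype.card V) g').filter (fun D => e2 ∈ D), μ D +
        ∑ D ∈ S, μ D := by
      rw [hS, sum_filter, sum_filter, ← sum_add_distrib]
      refine sum_congr rfl fun D _ => ?_
      by_cases h : e2 ∈ D
      · rw [if_pos h, if_neg (not_not.2 h), add_zero]
      · rw [if_neg h, if_pos h, zero_add]
    have h3 : ∑ D ∈ (lock μ (F x) (η / Fintype.card V) g').filter (fun D => e2 ∈ D), μ D ≤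
        mas μ (F x) (fun D => e2 ∈ D) := by
      unfold mas
      refine sum_le_sum_of_subset_of_nonneg ?_ (fun D _ _ => hμ0 D)
      intro D hD
      exact (@mem_filter _ _ (fun _ => Classical.propDecidable _) _ _).2
        ⟨(mem_filter.1 (mem_filter.1 hD).1).1, (mem_filter.1 hD).2⟩
    have h4 : ε3 / Fintype.card V + ε3 / Fintype.card V ≤ η' / Fintype.card V := by
      rw [← add_div]
      refine div_le_div_of_nonneg_right ?_ hn.le
      linarith
    linarith
  obtain ⟨f, hf⟩ := hlaw V G (rr (Fintype.card V)) ((lam (Fintype.card V) : ℝ) ^ a) ε3 GG μ hMu hΛ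
    hctx.num.ε3pos hctx.hn e1 e2 v S hSG hS3 hmass
  exact ⟨S, f, hSF, hf⟩

end Pool.Agent.Lib.MP_fce888_co
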