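import Pool.Agent.Lib.MP_fce888_co.C.Ifc

set_option autoImplicit false
set_option linter.unusedVariables false

/-!
# MP_fce888_co, 4.1-4.4: definitions and statements of the pieces (owner helper37)

Everything is written for one finite set `F` of good circuits (`F = CC_x` for a rectangle `x`),
the weights `μ`, and two thresholds `t` (`= η/n`) and `t'` (`= η'/n`).
-/

namespace Pool.Agent.Lib.MP_fce888_co

open Finset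
open scoped Classical

variable {V : Type} [Fintype V]

/-- mass of the circuits of `F` with the property `p` -/
noncomputable def mas (μ : Finset (Sym2 V) → ℝ) (F : Finset (Finset (Sym2 V)))
    (p : Finset (Sym2 V) → Prop) : ℝ := ∑ D ∈ F.filter p, μ D

/-- `CC_x^(e)`: the circuits of `F` which are locked at `e` -/
noncomputable def lock (μ : Finset (Sym2 V) → ℝ) (F : Finset (Finset (Sym2 V))) (t : ℝ)
    (e : Sym2 V) : Finset (Finset (Sym2 V)) :=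
  F.filter fun D => e ∈ D ∧ ∀ v ∈ vs D, mas μ F (fun D' => v ∈ vs D' ∧ e ∉ D') < t

/-- `CC_x^dif` -/
noncomputable def dif (μ : Finset (Sym2 V) → ℝ) (F : Finset (Finset (Sym2 V))) (t : ℝ) :
    Finset (Finset (Sym2 V)) :=
  F.filter fun D => ∀ v ∈ vs D, mas μ F (fun D' => v ∈ vs D') < t

/-- `Rel_x` -/
noncomputable def rel (μ : Finset (Sym2 V) → ℝ) (F : Finset (Finset (Sym2 V))) (t t' : ℝ) :
    Finset (Sym2 V) := univ.filter fun e => t' ≤ ∑ D ∈ lock μ F t e, μ D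

/-- the class of `e ∈ Rel_x` -/
noncomputable def cls (μ : Finset (Sym2 V) → ℝ) (F : Finset (Finset (Sym2 V))) (t t' : ℝ)
    (e : Sym2 V) : Finset (Sym2 V) :=
  (rel μ F t t').filter fun e' => ∃ D ∈ lock μ F t e, e' ∈ D

/-- the class of `e` is isolated: its distance to every other class is `> r2` -/
def Iso (G : SimpleGraph V) (r2 : ℕ) (μ : Finset (Sym2 V) → ℝ) (F : Finset (Finset (Sym2 V)))
    (t t' : ℝ) (e : Sym2 V) : Prop :=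
  ∀ g ∈ cls μ F t t' e, ∀ g' ∈ rel μ F t t', g' ∉ cls μ F t t' e →
    ∀ u ∈ g, ∀ v ∈ g', r2 < G.dist u v

/-- the set of the isolated classes; `t_x = (isoC ..).card` -/
noncomputable def isoC (G : SimpleGraph V) (r2 : ℕ) (μ : Finset (Sym2 V) → ℝ)
    (F : Finset (Finset (Sym2 V))) (t t' : ℝ) : Finset (Finset (Sym2 V)) :=
  ((rel μ F t t').filter fun e => Iso G r2 μ F t t' e).image fun e => cls μ F t t' e

/-- PIECE heavy.  Number of edges `e` with `μ(D ∈ F : e ∈ D) ≥ δ`.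
Proof: `∑_e μ(D ∈ F : e ∈ D) = ∑_{D ∈ F} |D| μ D ≤ 2 L ∑_{D ∈ F} μ D` (exchange of sums), and the
left side is `≥ #heavy * δ`. -/
def S_heavy : Prop :=
  ∀ (V : Type) [Fintype V] (μ : Finset (Sym2 V) → ℝ) (F : Finset (Finset (Sym2 V))) (L : ℕ) (δ : ℝ),
    (∀ D, 0 ≤ μ D) → (∀ D ∈ F, D.card ≤ 2 * L) →
    (((univ : Finset (Sym2 V)).filter fun e => δ ≤ mas μ F (fun D => e ∈ D)).card : ℝ) * δ ≤
      2 * L * ∑ D ∈ F, μ D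

/-- PIECE cls: (L1), (L2), and the mass form of (L4).
Proof. Write `R e e'` for: some `D ∈ lock e` contains `e'`.  (i) If `R e e'` then
`mas (e' ∈ D ∧ e ∉ D) < t`: take `a ∈ e'`; `a ∈ vs D`, and `{e' ∈ D', e ∉ D'} ⊆ {a ∈ vs D', e ∉ D'}`.
(ii) If `e, e' ∈ rel` and `R e e'` then `R e' e`: otherwise
`lock e' ⊆ {D ∈ F : e' ∈ D, e ∉ D}`, whose mass is `< t < t'`.
(iii) transitivity: `e, e', e'' ∈ rel`, `R e e'`, `R e' e''`: the mass of `lock e` is `≥ t' > 2t`; by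
(i), (ii) the mass of `{e ∈ D, e' ∉ D}` is `< t` and that of `{e' ∈ D, e'' ∉ D}` is `< t`; so some
`D ∈ lock e` contains `e''`.  (L4): `lock e` has mass `≥ t'` and its part with `e' ∉ D` mass `< t`.
(`t > 0` follows when `rel` matters: `mas ≥ 0`, so `t > mas ≥ 0` as soon as some `D ∈ lock e`
exists; for `e ∈ rel` the set `lock e` is nonempty since `t' > 0`.) -/
def S_cls : Prop :=
  ∀ (V : Type) [Fintype V] (μ : Finset (Sym2 V) → ℝ) (F : Finset (Finset (Sym2 V))) (t t' : ℝ),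
    (∀ D, 0 ≤ μ D) → 0 < t → 2 * t < t' →
    (∀ e ∈ rel μ F t t', e ∈ cls μ F t t' e) ∧
    (∀ e ∈ rel μ F t t', ∀ e' ∈ cls μ F t t' e, cls μ F t t' e' = cls μ F t t' e) ∧
    (∀ e ∈ rel μ F t t', ∀ e' ∈ cls μ F t t' e, mas μ F (fun D => e ∈ D ∧ e' ∉ D) < t) ∧
    (∀ e ∈ rel μ F t t', ∀ e' ∈ cls μ F t t' e, t' - t ≤ mas μ F (fun D => e ∈ D ∧ e' ∈ D))

/-- PIECE diam: (L4).  From the last part of `S_cls` and (M): for `u ∈ e`, `v ∈ e'`,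
`(η' - η)/n ≤ mas (e ∈ D, e' ∈ D) ≤ μ(u, v ∈ V(D)) ≤ Λ (1/2)^(min (dist u v) r / 2) / n`; if
`dist u v ≥ r1 + 1` then (as `r1 + 1 ≤ r`) the right side is `≤ Λ (1/2)^((r1+1)/2)/n < (η'-η)/n`. -/
def S_diam : Prop :=
  S_cls → ∀ (V : Type) [Fintype V] (G : SimpleGraph V) (r r1 : ℕ) (Λ η η' : ℝ)
    (GG F : Finset (Finset (Sym2 V))) (μ : Finset (Sym2 V) → ℝ), Mu G r Λ GG μ → F ⊆ GG →
    0 < η → 2 * η < η' → 0 ≤ Λ → r1 < r → Λ * (1 / 2) ^ ((r1 + 1) / 2) < η' - η →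
    ∀ e ∈ rel μ F (η / Fintype.card V) (η' / Fintype.card V),
    ∀ e' ∈ cls μ F (η / Fintype.card V) (η' / Fintype.card V) e,
    ∀ u ∈ e, ∀ v ∈ e', G.dist u v ≤ r1

/-- PIECE lawA: conditioning.  `f D = μ D / ∑_{S} μ` for `D ∈ S`, `0` otherwise.  For `tau`:
`∑_{D ∈ S, u ∈ V(D)} μ D ≤ μ(u, z ∈ V(D)) ≤ Λ (1/2)^(min (dist u z) r / 2)/n` by (M). -/
def S_lawA : Prop :=
  ∀ (V : Type) [Fintype V] (G : SimpleGraph V) (r : ℕ) (Λ ε3 : ℝ) (GG : Finset (Finset (Sym2 V)))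
    (μ : Finset (Sym2 V) → ℝ), Mu G r Λ GG μ → 0 ≤ Λ → 0 < ε3 → 0 < Fintype.card V →
    ∀ (e1 e2 : Sym2 V) (z : V) (S : Finset (Finset (Sym2 V))), S ⊆ GG →
      (∀ D ∈ S, z ∈ vs D ∧ e1 ∉ D ∧ e2 ∉ D) → ε3 / Fintype.card V ≤ ∑ D ∈ S, μ D →
      ∃ f, LawA G r (Λ / ε3) e1 e2 z S f

/-- PIECE lawB: conditioning on `S = dif μ F (ε2/n)`. For `eps`: if some `D ∈ S` contains `u` then
`mas μ F (u ∈ V(D')) < ε2/n`; the sum over `S` is at most this. -/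
def S_lawB : Prop :=
  ∀ (V : Type) [Fintype V] (ε0 ε2 : ℝ) (F : Finset (Finset (Sym2 V)))
    (μ : Finset (Sym2 V) → ℝ), (∀ D, 0 ≤ μ D) → 0 < ε0 → 0 < ε2 → 0 < Fintype.card V →
      ε0 / Fintype.card V ≤ ∑ D ∈ dif μ F (ε2 / Fintype.card V), μ D →
      ∃ f, LawB (ε2 / ε0) (dif μ F (ε2 / Fintype.card V)) f

/-- PIECE ramapp: from `RamseyN`.  Choose for `i ∈ I` an injection `φ i` of `Y i` into `Fin m`; colour
the pair `(i, k)` with `(φ i (Y i ∩ s i k), φ k (Y k ∩ s i k))`. -/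
def S_ramapp : Prop :=
  ∀ (N m : ℕ), RamseyN N m → ∀ (X : Type) (I : Finset (Fin N)) (Y : Fin N → Finset X)
    (s : Fin N → Fin N → Finset X), N ≤ 2 * I.card → (∀ i ∈ I, (Y i).card ≤ m) →
    ∃ i ∈ I, ∃ j ∈ I, ∃ k ∈ I, i < j ∧ j < k ∧ (∀ x ∈ Y i, x ∈ s i k → x ∈ s i j) ∧
      (∀ x ∈ Y k, x ∈ s i k → x ∈ s j k)

/-- PIECE ub: the union bound with (s3), first part.  `T` is a finite set of triples `(i, k, y)` with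
`i ≠ k`, `DD y` sets of circuits with `∑_{DD y} μ ≤ b`. -/
def S_ub : Prop :=
  ∀ (V : Type) [Fintype V] (N : ℕ) (Ω : Type) [Fintype Ω] (Ω₀ : Finset Ω)
    (C : Ω → Fin N → Fin N → Finset (Sym2 V)) (μ : Finset (Sym2 V) → ℝ),
    (∀ i k, i ≠ k → ∀ DD : Finset (Finset (Sym2 V)),
      ((Ω₀.filter fun ω => C ω i k ∈ DD).card : ℝ) ≤ (∑ D ∈ DD, μ D) * Fintype.card Ω) →
    ∀ (Y : Type) (J : Finset Y) (DD : Y → Finset (Finset (Sym2 V))) (b : ℝ), 0 ≤ b →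
      (∀ y ∈ J, ∑ D ∈ DD y, μ D ≤ b) →
      ((Ω₀.filter fun ω => ∃ i k, i ≠ k ∧ ∃ y ∈ J, C ω i k ∈ DD y).card : ℝ) ≤
        (N : ℝ) ^ 2 * J.card * b * Fintype.card Ω

/-- the context of the events: `x ∈ X` (a finite type with at most `K n` elements), `F x = CC_x` -/
structure Ctx (G : SimpleGraph V) (K N κ a : ℕ) (Cs : ℝ) (s Rm r1 r2 tc r4 ρ : ℕ)
    (LT ε0 ε2 ε3 η η' : ℝ) {Ω : Type} [Fintype Ω]
    (Ω₀ : Finset Ω) (Q : Ω → Fin N → Finset (Sym2 V)) (e : Ω → Fin N → Sym2 V)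
    (C : Ω → Fin N → Fin N → Finset (Sym2 V)) (GG : Finset (Finset (Sym2 V)))
    (μ : Finset (Sym2 V) → ℝ) (X : Type) [Fintype X] (F : X → Finset (Finset (Sym2 V))) : Prop where
  num : Num K N κ a Cs (Fintype.card V) s Rm r1 r2 tc r4 ρ LT ε0 ε2 ε3 η η'
  str : IsStr G N (LL (Fintype.card V)) (rr (Fintype.card V)) Cs ((lam (Fintype.card V) : ℝ) ^ a)
        Ω₀ Q e C GG μ
  hn : 0 < Fintype.card V
  hN : 1 ≤ N
  ηpos : 0 < η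
  cardX : Fintype.card X ≤ K * Fintype.card V
  sub : ∀ x, F x ⊆ GG

/-- `x` is medium -/
def Med (ε0 LT : ℝ) (μ : Finset (Sym2 V) → ℝ) (F : Finset (Finset (Sym2 V))) : Prop :=
  ε0 / Fintype.card V ≤ ∑ D ∈ F, μ D ∧ ∑ D ∈ F, μ D < LT / Fintype.card V

section events

variable (G : SimpleGraph V) (N : ℕ) {Ω : Type} [Fintype Ω]
    (Q : Ω → Fin N → Finset (Sym2 V)) (e : Ω → Fin N → Sym2 V)
    (C : Ω → Fin N → Fin N → Finset (Sym2 V))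
    (μ : Finset (Sym2 V) → ℝ) {X : Type} [Fintype X] (F : X → Finset (Finset (Sym2 V)))

/-- (b) -/
def Evb (ε0 : ℝ) (ω : Ω) : Prop := ∀ i k, i ≠ k → ∀ x : X,
  ∑ D ∈ F x, μ D < ε0 / Fintype.card V → C ω i k ∉ F x
/-- (c) -/
def Evc (ε0 LT : ℝ) (s : ℕ) (ω : Ω) : Prop := ∀ i k, i ≠ k →
  (univ.filter fun x : X => Med ε0 LT μ (F x) ∧ C ω i k ∈ F x).card ≤ s
/-- (d) -/
def Evd (ε0 ε2 LT : ℝ) (ω : Ω) : Prop := ∀ i k, i ≠ k → ∀ x : X, Med ε0 LT μ (F x) →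
  ∑ D ∈ dif μ (F x) (ε2 / Fintype.card V), μ D < ε0 / Fintype.card V →
  C ω i k ∉ dif μ (F x) (ε2 / Fintype.card V)
/-- (e) -/
def Eve (ε0 ε3 LT : ℝ) (ω : Ω) : Prop := ∀ i k, i ≠ k → ∀ x : X, Med ε0 LT μ (F x) →
  ¬ (ε3 / Fintype.card V ≤ mas μ (F x) (fun D => e ω i ∈ D) ∧
    ε3 / Fintype.card V ≤ mas μ (F x) (fun D => e ω k ∈ D))
/-- (f) -/
def Evf (ε0 ε2 LT η η' : ℝ) (ω : Ω) : Prop := ∀ i k, i ≠ k → ∀ x : X, Med ε0 LT μ (F x) →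
  ε2 / 3 / Fintype.card V ≤ mas μ (F x) (fun D => e ω i ∈ D) →
  C ω i k ∈ lock μ (F x) (η / Fintype.card V) (e ω i) →
  e ω i ∈ rel μ (F x) (η / Fintype.card V) (η' / Fintype.card V)
/-- (g) -/
def Evg (ε0 LT η η' : ℝ) (ω : Ω) : Prop := ∀ i k, i ≠ k → ∀ x : X, Med ε0 LT μ (F x) →
  ∀ g ∈ rel μ (F x) (η / Fintype.card V) (η' / Fintype.card V),
  ∀ g' ∈ cls μ (F x) (η / Fintype.card V) (η' / Fintype.card V) g,
  C ω i k ∈ F x → g ∈ C ω i k → g' ∈ C ω i k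

/-- `X(i)` -/
noncomputable def Xi (r2 : ℕ) (ε0 LT η η' : ℝ) (ω : Ω) (i : Fin N) : Finset X :=
  univ.filter fun x => Med ε0 LT μ (F x) ∧
    ∃ κ ∈ isoC G r2 μ (F x) (η / Fintype.card V) (η' / Fintype.card V), e ω i ∈ κ ∧ κ ⊆ Q ω i

/-- (h) -/
def Evh (r2 : ℕ) (κ : ℕ) (ε0 LT η η' : ℝ) (ω : Ω) : Prop :=
  N ≤ 2 * (univ.filter fun i : Fin N => ∑ x ∈ Xi G N Q e μ F r2 ε0 LT η η' ω i,
    (1 : ℝ) / ((isoC G r2 μ (F x) (η / Fintype.card V) (η' / Fintype.card V)).card : ℝ) ≤ κ).card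

end events

/-- a `Prop` quantified over all contexts -/
def ForCtx (P : ∀ (V : Type) [Fintype V] (G : SimpleGraph V) (K N κ a : ℕ) (Cs : ℝ)
    (s Rm r1 r2 tc r4 ρ : ℕ) (LT ε0 ε2 ε3 η η' : ℝ) (Ω : Type) [Fintype Ω]
    (Ω₀ : Finset Ω) (Q : Ω → Fin N → Finset (Sym2 V)) (e : Ω → Fin N → Sym2 V)
    (C : Ω → Fin N → Fin N → Finset (Sym2 V)) (GG : Finset (Finset (Sym2 V)))
    (μ : Finset (Sym2 V) → ℝ) (X : Type) [Fintype X] (F : X → Finset (Finset (Sym2 V))), Prop) :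
    Prop :=
  ∀ (V : Type) [Fintype V] (G : SimpleGraph V) (K N κ a : ℕ) (Cs : ℝ)
    (s Rm r1 r2 tc r4 ρ : ℕ) (LT ε0 ε2 ε3 η η' : ℝ) (Ω : Type) [Fintype Ω]
    (Ω₀ : Finset Ω) (Q : Ω → Fin N → Finset (Sym2 V)) (e : Ω → Fin N → Sym2 V)
    (C : Ω → Fin N → Fin N → Finset (Sym2 V)) (GG : Finset (Finset (Sym2 V)))
    (μ : Finset (Sym2 V) → ℝ) (X : Type) [Fintype X] (F : X → Finset (Finset (Sym2 V))),
    Ctx G K N κ a Cs s Rm r1 r2 tc r4 ρ LT ε0 ε2 ε3 η η' Ω₀ Q e C GG μ X F →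
    P V G K N κ a Cs s Rm r1 r2 tc r4 ρ LT ε0 ε2 ε3 η η' Ω Ω₀ Q e C GG μ X F

/-- PIECE evb: `P(not (b)) ≤ N² |X| ε0/n ≤ N² K ε0 ≤ 1/20`: `S_ub` with `J` = light `x`. -/
def S_evb : Prop := S_ub →
  ForCtx fun V _ G K N κ a Cs s Rm r1 r2 tc r4 ρ LT ε0 ε2 ε3 η η' Ω _ Ω₀ Q e C GG μ X _ F =>
    ((Ω₀.filter fun ω => ¬ Evb N C μ F ε0 ω).card : ℝ) ≤ 1 / 20 * Fintype.card Ω

/-- PIECE evc: Markov.  For `i ≠ k`: `∑_{ω ∈ Ω₀} #{x medium, C_ik ∈ F x} ≤ ∑_{x medium} μ(F x) |Ω| ≤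
K LT |Ω|`, so `#{ω ∈ Ω₀ : #{x} > s} * s ≤ K LT |Ω|`; sum over `≤ N²` pairs; `Num.evc`. (If `s = 0` then
`Num.evc` gives `N² K LT ≤ 0`, and `N, LT > 0`, so `K = 0`, `X` empty, and the event (c) always holds.) -/
def S_evc : Prop :=
  ForCtx fun V _ G K N κ a Cs s Rm r1 r2 tc r4 ρ LT ε0 ε2 ε3 η η' Ω _ Ω₀ Q e C GG μ X _ F =>
    ((Ω₀.filter fun ω => ¬ Evc N C μ F ε0 LT s ω).card : ℝ) ≤ 1 / 20 * Fintype.card Ω

/-- PIECE evd: as (b), with `DD x = dif μ (F x) (ε2/n)`. -/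
def S_evd : Prop := S_ub →
  ForCtx fun V _ G K N κ a Cs s Rm r1 r2 tc r4 ρ LT ε0 ε2 ε3 η η' Ω _ Ω₀ Q e C GG μ X _ F =>
    ((Ω₀.filter fun ω => ¬ Evd N C μ F ε0 ε2 LT ω).card : ℝ) ≤ 1 / 20 * Fintype.card Ω

/-- PIECE eve: `J` = triples `(x, g, g')`, `x` medium, `g, g'` heavy (`ε3/n ≤ mas (g ∈ D)`), and
`r < dist u v` for all `u ∈ g, v ∈ g'`; `DD = {D ∈ GG : g ∈ D, g' ∈ D}`, of mass
`≤ Λ (1/2)^(r/2)/n` by (M).  `e_i, e_k ∈ C_ik` and `e_far`.  `|J| ≤ |X| (2 L LT/ε3)²` by `S_heavy`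
(for medium `x`).  `Num.eve`. -/
def S_eve : Prop := S_ub → S_heavy →
  ForCtx fun V _ G K N κ a Cs s Rm r1 r2 tc r4 ρ LT ε0 ε2 ε3 η η' Ω _ Ω₀ Q e C GG μ X _ F =>
    ((Ω₀.filter fun ω => ¬ Eve N e μ F ε0 ε3 LT ω).card : ℝ) ≤ 1 / 100 * Fintype.card Ω

/-- PIECE evf: `J` = pairs `(x, g)`, `x` medium, `ε2/(3n) ≤ mas (g ∈ D)`, `g ∉ Rel_x`;
`DD = lock μ (F x) (η/n) g`, of mass `< η'/n`.  `|J| ≤ |X| (6 L LT/ε2)` by `S_heavy`.  `Num.evf`. -/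
def S_evf : Prop := S_ub → S_heavy →
  ForCtx fun V _ G K N κ a Cs s Rm r1 r2 tc r4 ρ LT ε0 ε2 ε3 η η' Ω _ Ω₀ Q e C GG μ X _ F =>
    ((Ω₀.filter fun ω => ¬ Evf N e C μ F ε0 ε2 LT η η' ω).card : ℝ) ≤ 1 / 100 * Fintype.card Ω

/-- PIECE evg: `J` = triples `(x, g, g')`, `x` medium, `g ∈ Rel_x`, `g' ∈ cls g`;
`DD = {D ∈ F x : g ∈ D, g' ∉ D}`, of mass `< η/n` by `S_cls`.  `|J| ≤ |X| |Rel_x|² ≤
|X| (2 L LT/η')²` by `S_heavy` (`g ∈ Rel_x` implies `η'/n ≤ mas (g ∈ D)`).  `Num.evg`. -/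
def S_evg : Prop := S_ub → S_heavy → S_cls →
  ForCtx fun V _ G K N κ a Cs s Rm r1 r2 tc r4 ρ LT ε0 ε2 ε3 η η' Ω _ Ω₀ Q e C GG μ X _ F =>
    ((Ω₀.filter fun ω => ¬ Evg N C μ F ε0 LT η η' ω).card : ℝ) ≤ 1 / 100 * Fintype.card Ω

/-- PIECE hmean: for fixed `i`,
`∑_{ω ∈ Ω₀} ∑_{x ∈ X(i)} 1/t_x ≤ (Cs K / 2) |Ω|`.  Proof: `∑_{x} (1/t_x) ∑_{κ ∈ isoC_x} ∑_{g ∈ κ}
#{ω ∈ Ω₀ : e_i = g, κ ⊆ Q_i}`, each term `≤ Cs (1/2)^|κ| / n |Ω|` by `law2` (`κ` lies within `r1 ≤ r`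
of `g` by `S_diam`), `|κ| (1/2)^|κ| ≤ 1/2`, `|isoC_x| = t_x`, `|X| ≤ K n`.
(`Cs ≥ 0` may be assumed: if `Cs < 0`, `law2` gives a negative bound for a cardinality, so there are no
`κ` at all and the sum is `0`; the statement has `max Cs 0`.) -/
def S_hmean : Prop := S_cls → S_diam →
  ForCtx fun V _ G K N κ a Cs s Rm r1 r2 tc r4 ρ LT ε0 ε2 ε3 η η' Ω _ Ω₀ Q e C GG μ X _ F =>
    ∀ i : Fin N, ∑ ω ∈ Ω₀, ∑ x ∈ Xi G N Q e μ F r2 ε0 LT η η' ω i,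
      (1 : ℝ) / ((isoC G r2 μ (F x) (η / Fintype.card V) (η' / Fintype.card V)).card : ℝ) ≤
      max Cs 0 * K / 2 * Fintype.card Ω

/-- PIECE evh: Markov twice.  `P(ω ∈ Ω₀, ∑_{x ∈ X(i)} 1/t_x > κ) ≤ (max Cs 0 * K/2)/κ ≤ 1/8` (as
`4 Cs K ≤ κ`, `1 ≤ κ`), so the mean number of bad `i` is `≤ N/8`, and
`P(ω ∈ Ω₀, #good < N/2) = P(#bad > N/2) ≤ 1/4`. -/
def S_evh : Prop := S_hmean → S_cls → S_diam →
  ForCtx fun V _ G K N κ a Cs s Rm r1 r2 tc r4 ρ LT ε0 ε2 ε3 η η' Ω _ Ω₀ Q e C GG μ X _ F =>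
    ((Ω₀.filter fun ω => ¬ Evh G N Q e μ F r2 κ ε0 LT η η' ω).card : ℝ) ≤
      1 / 4 * Fintype.card Ω

/-- PIECE omega: union bound of the seven events: `1/20+1/20+1/20+3/100+1/4 < 9/10`. -/
def S_omega : Prop :=
  S_ub → S_heavy → S_cls → S_diam → S_evb → S_evc → S_evd → S_eve → S_evf → S_evg → S_hmean →
  S_evh →
  ForCtx fun V _ G K N κ a Cs s Rm r1 r2 tc r4 ρ LT ε0 ε2 ε3 η η' Ω _ Ω₀ Q e C GG μ X _ F =>
    ∃ ω ∈ Ω₀, Evb N C μ F ε0 ω ∧ Evc N C μ F ε0 LT s ω ∧ Evd N C μ F ε0 ε2 LT ω ∧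
      Eve N e μ F ε0 ε3 LT ω ∧ Evf N e C μ F ε0 ε2 LT η η' ω ∧ Evg N C μ F ε0 LT η η' ω ∧
      Evh G N Q e μ F r2 κ ε0 LT η η' ω

/-- PIECE tri: the facts (s2) give `Tri` for `Th = Q_i ∪ Q_j ∪ Q_k`, `C = C_ik`, `C1 = C_ij`,
`C2 = C_jk`, `e1 = e_i`, `e2 = e_k` (`i, j, k` distinct, `ω ∈ Ω₀`).  `e1 ≠ e2` by `e_far` (take the
same vertex).  Only rewriting. -/
def S_tri : Prop :=
  ∀ (V : Type) [Fintype V] (G : SimpleGraph V) (N L r : ℕ) (Cs Λ : ℝ) (Ω : Type) [Fintype Ω]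
    (Ω₀ : Finset Ω) (Q : Ω → Fin N → Finset (Sym2 V)) (e : Ω → Fin N → Sym2 V)
    (C : Ω → Fin N → Fin N → Finset (Sym2 V)) (GG : Finset (Finset (Sym2 V)))
    (μ : Finset (Sym2 V) → ℝ), IsStr G N L r Cs Λ Ω₀ Q e C GG μ →
    ∀ ω ∈ Ω₀, ∀ i j k : Fin N, i ≠ j → i ≠ k → j ≠ k →
      Tri G L r GG (Q ω i ∪ Q ω j ∪ Q ω k) (C ω i k) (C ω i j) (C ω j k) (e ω i) (e ω k)

/-- PIECE case: the case analysis of 4.4 before the isolated classes.  `C = C_ik`.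
Proof.  Not (B) and (d): `C` contains `v` with `ε2/n ≤ mas (v ∈ V(D))`.  Not (A1):
`mas (v ∈ V(D), e1, e2 ∉ D) < ε3/n`, so `mas (v ∈ V(D), e1 ∈ D) ≥ (ε2-ε3)/(2n) ≥ ε2/(3n)` or the same
for `e2`.  Say `e1`: `mas (e1 ∈ D) ≥ ε2/(3n) ≥ ε3/n`, by (e) `mas (e2 ∈ D) < ε3/n`.  Not (A1) for all
`v ∈ V(C)`: `mas (v ∈ V(D), e1 ∉ D) < ε3/n + ε3/n = η/n`, so `C ∈ lock e1`; (f): `e1 ∈ Rel`; (g):
`cls e1 ⊆ C`.  For `e2`: the same with `i, k` exchanged (`C_ki = C_ik` by `symm`). -/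
def S_case : Prop := S_cls →
  ForCtx fun V _ G K N κ a Cs s Rm r1 r2 tc r4 ρ LT ε0 ε2 ε3 η η' Ω _ Ω₀ Q e C GG μ X _ F =>
    ∀ ω ∈ Ω₀, Evd N C μ F ε0 ε2 LT ω → Eve N e μ F ε0 ε3 LT ω → Evf N e C μ F ε0 ε2 LT η η' ω →
      Evg N C μ F ε0 LT η η' ω → ∀ i k, i ≠ k → ∀ x, Med ε0 LT μ (F x) → C ω i k ∈ F x →
      ε0 / Fintype.card V ≤ ∑ D ∈ dif μ (F x) (ε2 / Fintype.card V), μ D ∨
      (∃ v ∈ vs (C ω i k), ε3 / Fintype.card V ≤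
        mas μ (F x) (fun D => v ∈ vs D ∧ e ω i ∉ D ∧ e ω k ∉ D)) ∨
      (e ω i ∈ rel μ (F x) (η / Fintype.card V) (η' / Fintype.card V) ∧
        cls μ (F x) (η / Fintype.card V) (η' / Fintype.card V) (e ω i) ⊆ C ω i k ∧
        mas μ (F x) (fun D => e ω k ∈ D) < ε3 / Fintype.card V) ∨
      (e ω k ∈ rel μ (F x) (η / Fintype.card V) (η' / Fintype.card V) ∧
        cls μ (F x) (η / Fintype.card V) (η' / Fintype.card V) (e ω k) ⊆ C ω i k ∧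
        mas μ (F x) (fun D => e ω i ∈ D) < ε3 / Fintype.card V)

/-- PIECE lock: the law at a class different from `cls e1`.  `g' ∈ Rel`, `g' ∉ cls e1`, `v ∈ g'`:
`S = {D ∈ lock g' : e2 ∉ D}` has mass `≥ (η' - ε3)/n ≥ ε3/n`, its circuits contain `g'`, hence `v`; they
avoid `e1` because `e1 ∈ D ∈ lock g'` would give `e1 ∈ cls g'`, so `g' ∈ cls g' = cls e1` by `S_cls`. -/
def S_lock : Prop := S_cls → S_lawA →
  ForCtx fun V _ G K N κ a Cs s Rm r1 r2 tc r4 ρ LT ε0 ε2 ε3 η η' Ω _ Ω₀ Q e C GG μ X _ F =>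
    ∀ (x : X) (e1 e2 g' : Sym2 V) (v : V),
      e1 ∈ rel μ (F x) (η / Fintype.card V) (η' / Fintype.card V) →
      g' ∈ rel μ (F x) (η / Fintype.card V) (η' / Fintype.card V) →
      g' ∉ cls μ (F x) (η / Fintype.card V) (η' / Fintype.card V) e1 → v ∈ g' →
      mas μ (F x) (fun D => e2 ∈ D) < ε3 / Fintype.card V →
      ∃ S f, (∀ D ∈ S, D ∈ F x) ∧
        LawA G (rr (Fintype.card V)) ((lam (Fintype.card V) : ℝ) ^ a / ε3) e1 e2 v S f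

/-- the description of one medium `x ∈ σ(C)` with `e1 ∈ Rel_x`, `cls e1 ⊆ C ⊆ Th`, `μ(e2 ∈ D)` small:
type A with one candidate near `Th`, or type A3, or `x ∈ X(i)` with `t_x ≤ 2` -/
def Descr (G : SimpleGraph V) (r r2 tc : ℕ) (T0 : ℝ) (Th : Finset (Sym2 V)) (e1 e2 : Sym2 V)
    (F : Finset (Finset (Sym2 V))) (t : ℕ) (inX : Prop) : Prop :=
  (∃ v, (∃ w ∈ vs Th, G.dist v w ≤ r2) ∧ ∃ S f, (∀ D ∈ S, D ∈ F) ∧ LawA G r T0 e1 e2 v S f) ∨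
  (inX ∧ 3 ≤ t ∧ ∃ Z : Finset V, Z.card + 1 = t ∧ (∀ z ∈ Z, ∀ z' ∈ Z, z ≠ z' → tc < G.dist z z') ∧
    ∀ z ∈ Z, ∃ S f, (∀ D ∈ S, D ∈ F) ∧ LawA G r T0 e1 e2 z S f) ∨
  (inX ∧ t ≤ 2)

/-- PIECE descr: (A2), (A3), (R) of 4.4.  Put `κ' = cls e1`.  Not isolated: there are `g ∈ κ'`,
`g' ∈ Rel \ κ'`, `u ∈ g`, `v ∈ g'` with `dist u v ≤ r2`; `g ∈ C ⊆ Th`; `S_lock` gives the law at `v`
(first alternative).  Isolated: `κ' ∈ isoC`, `κ' ⊆ Q ω i` by `near_mem` and `S_diam` (`r1 < r`), so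
`x ∈ X(i)`.  If `t_x ≥ 3`: for every `κ'' ∈ isoC \ {κ'}` choose `g'' ∈ Rel` with `cls g'' = κ''` (and
`Iso g''`) and a vertex `z ∈ g''`; two different classes are at distance `> r2 ≥ tc`; `Z` = these
vertices, `|Z| = t_x - 1`; `S_lock`. -/
def S_descr : Prop := S_cls → S_diam → S_lawA → S_lock →
  ForCtx fun V _ G K N κ a Cs s Rm r1 r2 tc r4 ρ LT ε0 ε2 ε3 η η' Ω _ Ω₀ Q e C GG μ X _ F =>
    ∀ ω ∈ Ω₀, ∀ (i k : Fin N) (Th : Finset (Sym2 V)) (e2 : Sym2 V), i ≠ k → C ω i k ⊆ Th →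
      ∀ x, Med ε0 LT μ (F x) →
      e ω i ∈ rel μ (F x) (η / Fintype.card V) (η' / Fintype.card V) →
      cls μ (F x) (η / Fintype.card V) (η' / Fintype.card V) (e ω i) ⊆ C ω i k →
      mas μ (F x) (fun D => e2 ∈ D) < ε3 / Fintype.card V →
      Descr G (rr (Fintype.card V)) r2 tc ((lam (Fintype.card V) : ℝ) ^ a / ε3) Th (e ω i) e2 (F x)
        (isoC G r2 μ (F x) (η / Fintype.card V) (η' / Fintype.card V)).card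
        (x ∈ Xi G N Q e μ F r2 ε0 LT η η' ω i)

end Pool.Agent.Lib.MP_fce888_co
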